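import Pool.Agent.R446.KR.Rmt

set_option autoImplicit false

/-! Integration by parts on the unitary group. -/

namespace Pool.Agent.J4.H44.WI

open Complex MeasureTheory Filter Topology Set Pool.Agent.R446.KR
open scoped ComplexConjugate Matrix

noncomputable section

variable {N : ℕ}

/-- matrices -/
abbrev Mt (N : ℕ) := Matrix (Fin N) (Fin N) ℂ

/-- the unitary group -/
abbrev Gp (N : ℕ) := Matrix.unitaryGroup (Fin N) ℂ

/-- `γ` has derivative `A γ` at `t` -/
def Pt (A : Mt N) (γ : ℝ → Mt N) (t : ℝ) : Prop := ∀ i j, HasDerivAt (fun s => γ s i j) ((A * γ t) i j) t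

/-- `g` is the derivative of `f` in the direction of left multiplication by `A` -/
def La (A : Mt N) (f g : Mt N → ℂ) : Prop := ∀ (γ : ℝ → Mt N) (t : ℝ), Pt A γ t →
  HasDerivAt (fun s => f (γ s)) (g (γ t)) t

/-- the same for matrix valued functions -/
def LM (A : Mt N) (Φ Ψ : Mt N → Mt N) : Prop := ∀ i j, La A (fun M => Φ M i j) (fun M => Ψ M i j)

variable {A : Mt N} {f g f' g' : Mt N → ℂ} {Φ Ψ Φ' Ψ' : Mt N → Mt N}

lemma La.const (c : ℂ) : La A (fun _ => c) (fun _ => 0) := fun _ t _ => hasDerivAt_const t c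

lemma La.add (h1 : La A f f') (h2 : La A g g') : La A (fun M => f M + g M) (fun M => f' M + g' M) :=
  fun γ t h => (h1 γ t h).fun_add (h2 γ t h)

lemma La.mul (h1 : La A f f') (h2 : La A g g') : La A (fun M => f M * g M) (fun M => f' M * g M + f M * g' M) :=
  fun γ t h => (h1 γ t h).fun_mul (h2 γ t h)

lemma La.const_mul (c : ℂ) (h1 : La A f f') : La A (fun M => c * f M) (fun M => c * f' M) :=
  fun γ t h => (h1 γ t h).const_mul c

lemma La.sum {ι : Type} (s : Finset ι) {F F' : ι → Mt N → ℂ} (h : ∀ i ∈ s, La A (F i) (F' i)) :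
    La A (fun M => ∑ i ∈ s, F i M) (fun M => ∑ i ∈ s, F' i M) :=
  fun γ t hp => HasDerivAt.fun_sum fun i hi => h i hi γ t hp

lemma La.conj (h1 : La A f f') : La A (fun M => conj (f M)) (fun M => conj (f' M)) := by
  intro γ t h
  exact (h1 γ t h).star

lemma La.congr (h1 : La A f f') (h2 : ∀ M, f' M = g' M) : La A f g' := fun γ t h => by
  rw [← h2]; exact h1 γ t h

lemma LM.id : LM A (fun M => M) (fun M => A * M) := fun i j _ _ h => h i j

lemma LM.const (C : Mt N) : LM A (fun _ => C) (fun _ => 0) := fun i j => by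
  simpa using La.const (A := A) (C i j)

lemma LM.mul (h1 : LM A Φ Φ') (h2 : LM A Ψ Ψ') : LM A (fun M => Φ M * Ψ M) (fun M => Φ' M * Ψ M + Φ M * Ψ' M) := by
  intro i j
  have := La.sum Finset.univ (A := A) (F := fun l M => Φ M i l * Ψ M l j)
    (F' := fun l M => Φ' M i l * Ψ M l j + Φ M i l * Ψ' M l j) fun l _ => (h1 i l).mul (h2 l j)
  intro γ t h
  have h3 := this γ t h
  simp only [Matrix.mul_apply, Matrix.add_apply, ← Finset.sum_add_distrib]
  exact h3

lemma LM.pow (j : ℕ) : LM A (fun M => M ^ j) (fun M => ∑ l ∈ Finset.range j, M ^ l * A * M ^ (j - l)) := by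
  induction j with
  | zero => simpa using LM.const (A := A) (1 : Mt N)
  | succ j ih =>
    have h := ih.mul (LM.id (A := A))
    intro a b γ t hp
    have h2 := h a b γ t hp
    have e : (∑ l ∈ Finset.range (j + 1), (γ t) ^ l * A * (γ t) ^ (j + 1 - l)) =
        (∑ l ∈ Finset.range j, (γ t) ^ l * A * (γ t) ^ (j - l)) * γ t + (γ t) ^ j * (A * γ t) := by
      rw [Finset.sum_range_succ, Finset.sum_mul]
      congr 1
      · refine Finset.sum_congr rfl fun l hl => ?_
        have : j + 1 - l = (j - l) + 1 := by have := Finset.mem_range.1 hl; omega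
        rw [this, pow_succ, mul_assoc ((γ t) ^ l * A)]
      · rw [show j + 1 - j = 1 by omega, pow_one, mul_assoc]
    simp only [e]
    have e2 : (fun s => (γ s ^ (j + 1)) a b) = fun s => (γ s ^ j * γ s) a b := by
      funext s; rw [pow_succ]
    rw [e2]
    exact h2

lemma LM.trace (h : LM A Φ Φ') : La A (fun M => (Φ M).trace) (fun M => (Φ' M).trace) := by
  unfold Matrix.trace
  exact La.sum Finset.univ fun i _ => h i i

/-- derivative of `tr(B M^j)` -/
lemma La.trB (B : Mt N) (j : ℕ) : La A (fun M => (B * M ^ j).trace)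
    (fun M => ∑ l ∈ Finset.range j, (B * (M ^ l * A * M ^ (j - l))).trace) := by
  refine ((LM.const B).mul (LM.pow j)).trace.congr fun M => ?_
  rw [zero_mul, zero_add, Finset.mul_sum, Matrix.trace_sum]

/-- derivative of `tr(M^n)` -/
lemma La.trP (n : ℕ) : La A (fun M => (M ^ n).trace) (fun M => n * (A * M ^ n).trace) := by
  have h := La.trB (A := A) (1 : Mt N) n
  intro γ t hp
  have h2 := h γ t hp
  have e : (fun s => (γ s ^ n).trace) = fun s => ((1 : Mt N) * γ s ^ n).trace := by
    funext s; rw [one_mul]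
  rw [e]
  convert h2 using 1
  show (n : ℂ) * (A * γ t ^ n).trace = ∑ l ∈ Finset.range n, ((1 : Mt N) * (γ t ^ l * A * γ t ^ (n - l))).trace
  rw [Finset.sum_congr rfl (g := fun _ => (A * γ t ^ n).trace), Finset.sum_const, Finset.card_range, nsmul_eq_mul]
  intro l hl
  have hl' := Finset.mem_range.1 hl
  rw [one_mul, mul_assoc, Matrix.trace_mul_comm, mul_assoc, ← pow_add, show n - l + l = n by omega]

/-! ### the one parameter groups -/

section

attribute [local instance] Matrix.linftyOpNormedRing Matrix.linftyOpNormedAlgebra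

lemma exp_path (A : Mt N) (U : Mt N) (t : ℝ) : Pt A (fun s => NormedSpace.exp (s • A) * U) t := by
  intro i j
  have h := hasDerivAt_exp_smul_const' (𝕂 := ℝ) A t
  have h2 : HasDerivAt (fun s : ℝ => NormedSpace.exp (s • A) * U) (A * NormedSpace.exp (t • A) * U) t :=
    h.mul_const U
  have hl : Continuous (fun M : Mt N => M i j) := by fun_prop
  let L : Mt N →L[ℝ] ℂ := ⟨{ toFun := fun M => M i j, map_add' := fun _ _ => rfl, map_smul' := fun _ _ => rfl }, hl⟩
  have h3 := L.hasFDerivAt.comp_hasDerivAt t h2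
  rw [← mul_assoc]
  exact h3

lemma exp_cont (A : Mt N) : Continuous (fun t : ℝ => NormedSpace.exp (t • A)) :=
  (differentiable_exp_smul_const ℝ A).continuous

end

lemma exp_unit {A : Mt N} (hA : Aᴴ = -A) (t : ℝ) : NormedSpace.exp (t • A) ∈ Matrix.unitaryGroup (Fin N) ℂ := by
  rw [Matrix.mem_unitaryGroup_iff, Matrix.star_eq_conjTranspose, ← Matrix.exp_conjTranspose,
    Matrix.conjTranspose_smul, hA]
  have e : (star t • -A : Mt N) = -(t • A) := by
    rw [smul_neg]; rfl
  have hc : Commute (t • A) (-(t • A)) := (Commute.refl (t • A)).neg_right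
  rw [e, ← Matrix.exp_add_of_commute _ _ hc, add_neg_cancel, NormedSpace.exp_zero]

/-- the one-parameter group in `U(N)` -/
def V {A : Mt N} (hA : Aᴴ = -A) (t : ℝ) : Gp N := ⟨NormedSpace.exp (t • A), exp_unit hA t⟩

lemma V_zero {A : Mt N} (hA : Aᴴ = -A) : V hA 0 = 1 := by
  apply Subtype.ext
  show NormedSpace.exp ((0:ℝ) • A) = 1
  rw [zero_smul, NormedSpace.exp_zero]

lemma coe_mul (V U : Gp N) : ((V * U : Gp N) : Mt N) = (V : Mt N) * (U : Mt N) := rfl

/-- **integration by parts** -/
theorem ward_skew {A : Mt N} (hA : Aᴴ = -A) (h : La A f g) (hf : Continuous f) (hg : Continuous g) :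
    ∫ U : Gp N, g (U : Mt N) ∂(haarU N) = 0 := by
  have hcoe : Continuous (fun U : Gp N => (U : Mt N)) := continuous_subtype_val
  have hgc : Continuous (fun U : Gp N => g (U : Mt N)) := hg.comp hcoe
  have hfc : Continuous (fun U : Gp N => f (U : Mt N)) := hf.comp hcoe
  obtain ⟨C, hC⟩ := (isCompact_range hgc).isBounded.exists_norm_le
  have hC' : ∀ U : Gp N, ‖g (U : Mt N)‖ ≤ C := fun U => hC _ ⟨U, rfl⟩
  have hmul : ∀ t : ℝ, Continuous (fun U : Gp N => V hA t * U) := fun t => continuous_const.mul continuous_id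
  have hd := hasDerivAt_integral_of_dominated_loc_of_deriv_le (μ := haarU N) (𝕜 := ℝ)
    (F := fun (t : ℝ) (U : Gp N) => f ((V hA t * U : Gp N) : Mt N))
    (F' := fun (t : ℝ) (U : Gp N) => g ((V hA t * U : Gp N) : Mt N)) (x₀ := (0:ℝ)) (s := univ)
    (bound := fun _ => C) Filter.univ_mem
    (Eventually.of_forall fun t => (hfc.comp (hmul t)).aestronglyMeasurable)
    (((hfc.comp (hmul 0))).integrable_of_hasCompactSupport (HasCompactSupport.of_compactSpace _))
    ((hgc.comp (hmul 0)).aestronglyMeasurable)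
    (Eventually.of_forall fun U t _ => hC' _) (integrable_const C)
    (Eventually.of_forall fun U t _ => h (fun s => NormedSpace.exp (s • A) * (U : Mt N)) t (exp_path A U t))
  have h1 := hd.2
  have hconst : (fun t : ℝ => ∫ U : Gp N, f ((V hA t * U : Gp N) : Mt N) ∂(haarU N)) =
      fun _ => ∫ U : Gp N, f (U : Mt N) ∂(haarU N) := by
    funext t
    exact integral_mul_left_eq_self (μ := haarU N) (fun U : Gp N => f (U : Mt N)) (V hA t)
  rw [hconst] at h1
  have h2 := h1.unique (hasDerivAt_const (0:ℝ) _)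
  rw [V_zero] at h2
  simpa using h2

end

end Pool.Agent.J4.H44.WI
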