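import Pool.Agent.J4.H44.WI.U1

set_option autoImplicit false

/-! Class functions and the integrated Ward identity. -/

namespace Pool.Agent.J4.H44.WI

open Complex MeasureTheory Filter Topology Set Pool.Agent.R446.KR
open scoped ComplexConjugate Matrix

noncomputable section

variable {N : ℕ} {A : Mt N}

/-- power sums -/
def p (n : ℕ) (M : Mt N) : ℂ := (M ^ n).trace

/-- products of power sums -/
def pl (l : List ℕ) (M : Mt N) : ℂ := (l.map fun a => p a M).prod

/-- the coefficients of `det(1 - X M)^k`, through Newton's identities -/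
def cf (k : ℕ) (M : Mt N) : ℕ → ℂ
  | 0 => 1
  | m + 1 => -((k : ℂ) / (m + 1)) * ∑ i : Fin (m + 1), p (i + 1) M * cf k M (m - i)
  decreasing_by omega

lemma cf_zero (k : ℕ) (M : Mt N) : cf k M 0 = 1 := by rw [cf]

lemma cf_succ (k : ℕ) (M : Mt N) (m : ℕ) :
    cf k M (m + 1) = -((k : ℂ) / (m + 1)) * ∑ i ∈ Finset.range (m + 1), p (i + 1) M * cf k M (m - i) := by
  rw [cf, Finset.sum_range fun i => p (i + 1) M * cf k M (m - i)]

lemma cf_newton (k : ℕ) (M : Mt N) (m : ℕ) :
    (m : ℂ) * cf k M m = -(k : ℂ) * ∑ i ∈ Finset.range m, p (i + 1) M * cf k M (m - 1 - i) := by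
  rcases m with _ | m
  · simp
  · rw [cf_succ]
    have h : ((m : ℂ) + 1) ≠ 0 := by exact_mod_cast Nat.succ_ne_zero m
    push_cast
    rw [← mul_assoc]
    congr 1
    field_simp

lemma p_cont (n : ℕ) : Continuous (p n : Mt N → ℂ) := by
  unfold p
  exact (continuous_pow n).matrix_trace

lemma pl_cont (l : List ℕ) : Continuous (pl l : Mt N → ℂ) := by
  induction l with
  | nil =>
    have e : (pl [] : Mt N → ℂ) = fun _ => 1 := by funext M; simp [pl]
    rw [e]; exact continuous_const
  | cons a l ih =>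
    have e : (pl (a :: l) : Mt N → ℂ) = fun M => p a M * pl l M := by
      funext M; simp [pl]
    rw [e]
    exact (p_cont a).mul ih

lemma cf_cont (k : ℕ) (m : ℕ) : Continuous (fun M : Mt N => cf k M m) := by
  induction m using Nat.strong_induction_on with
  | _ m ih =>
    rcases m with _ | m
    · simp only [cf_zero]; exact continuous_const
    · simp only [cf_succ]
      refine continuous_const.mul (continuous_finsetSum _ fun i _ => (p_cont _).mul (ih _ (by omega)))

lemma pl_cons (a : ℕ) (l : List ℕ) (M : Mt N) : pl (a :: l) M = p a M * pl l M := by simp [pl]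

lemma pl_erase {a : ℕ} {l : List ℕ} (h : a ∈ l) (M : Mt N) : p a M * pl (l.erase a) M = pl l M := by
  unfold pl
  exact List.prod_map_erase (fun a => p a M) h

/-- derivative of a product of power sums -/
def dpl (A : Mt N) (l : List ℕ) (M : Mt N) : ℂ :=
  (l.map fun a : ℕ => (a : ℂ) * (A * M ^ a).trace * pl (l.erase a) M).sum

lemma La.pl (l : List ℕ) : La A (pl l) (dpl A l) := by
  induction l with
  | nil =>
    have e1 : (WI.pl [] : Mt N → ℂ) = fun _ => 1 := by funext M; simp [WI.pl]
    have e2 : (dpl A [] : Mt N → ℂ) = fun _ => 0 := by funext M; simp [dpl]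
    rw [e1, e2]
    exact La.const 1
  | cons b l ih =>
    have e : (WI.pl (b :: l) : Mt N → ℂ) = fun M => p b M * WI.pl l M := by
      funext M; simp [WI.pl]
    rw [e]
    refine ((La.trP (A := A) b).mul ih).congr fun M => ?_
    unfold dpl
    rw [List.map_cons, List.sum_cons, List.erase_cons_head]
    congr 1
    show p b M * _ = _
    rw [← List.sum_map_mul_left]
    congr 1
    refine List.map_congr_left fun a ha => ?_
    by_cases hab : a = b
    · subst hab
      rw [List.erase_cons_head, mul_left_comm, pl_erase ha]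
    · rw [List.erase_cons_tail (by simpa using fun h => hab h.symm), pl_cons]
      ring

lemma cf_swap (k m : ℕ) (M : Mt N) (τ : ℕ → ℂ) :
    ∑ i ∈ Finset.range (m + 1), ((i + 1 : ℕ) * τ i * cf k M (m - i) +
      p (i + 1) M * (-(k : ℂ) * ∑ l ∈ Finset.range (m - i), τ l * cf k M (m - i - 1 - l))) =
    ((m : ℂ) + 1) * ∑ i ∈ Finset.range (m + 1), τ i * cf k M (m - i) := by
  have h1 : ∑ i ∈ Finset.range (m + 1), p (i + 1) M * (-(k : ℂ) * ∑ l ∈ Finset.range (m - i),
      τ l * cf k M (m - i - 1 - l)) =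
      ∑ l ∈ Finset.range (m + 1), τ l * (((m - l : ℕ) : ℂ) * cf k M (m - l)) := by
    have e1 : ∀ l ∈ Finset.range (m + 1), τ l * (((m - l : ℕ) : ℂ) * cf k M (m - l)) =
        ∑ i ∈ Finset.range (m - l), τ l * (-(k : ℂ) * (p (i + 1) M * cf k M (m - l - 1 - i))) := by
      intro l _
      rw [cf_newton, ← Finset.mul_sum, ← Finset.mul_sum]
    rw [Finset.sum_congr rfl e1]
    simp only [Finset.mul_sum]
    rw [Finset.sum_comm' (t' := Finset.range (m + 1)) (s' := fun l => Finset.range (m - l))]
    · refine Finset.sum_congr rfl fun l _ => Finset.sum_congr rfl fun i _ => ?_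
      have : m - i - 1 - l = m - l - 1 - i := by omega
      rw [this]
      ring
    · intro i l
      simp only [Finset.mem_range]
      omega
  rw [Finset.sum_add_distrib, h1, ← Finset.sum_add_distrib, Finset.mul_sum]
  refine Finset.sum_congr rfl fun i hi => ?_
  have hi' := Finset.mem_range.1 hi
  have : ((m - i : ℕ) : ℂ) = (m : ℂ) - i := by
    rw [Nat.cast_sub (by omega)]
  rw [this]
  push_cast
  ring

/-- derivative of the coefficients -/
lemma La.cf (k m : ℕ) : La A (fun M => cf k M m)
    (fun M => -(k : ℂ) * ∑ i ∈ Finset.range m, (A * M ^ (i + 1)).trace * cf k M (m - 1 - i)) := by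
  induction m using Nat.strong_induction_on with
  | _ m ih =>
    rcases m with _ | m
    · simp only [cf_zero, Finset.range_zero, Finset.sum_empty, mul_zero]
      exact La.const 1
    · have h := (La.sum (Finset.range (m + 1)) (A := A) (F := fun i M => p (i + 1) M * WI.cf k M (m - i))
        (F' := fun i M => ((i + 1 : ℕ) : ℂ) * (A * M ^ (i + 1)).trace * WI.cf k M (m - i) +
          p (i + 1) M * (-(k : ℂ) * ∑ l ∈ Finset.range (m - i), (A * M ^ (l + 1)).trace *
            WI.cf k M (m - i - 1 - l))) fun i _ => (La.trP (A := A) (i + 1)).mul (ih (m - i) (by omega))).const_mul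
        (-((k : ℂ) / (m + 1)))
      simp only [cf_succ]
      refine h.congr fun M => ?_
      rw [cf_swap k m M (fun i => (A * M ^ (i + 1)).trace)]
      have hm : ((m : ℂ) + 1) ≠ 0 := by exact_mod_cast Nat.succ_ne_zero m
      have e : m + 1 - 1 = m := rfl
      rw [e]
      field_simp

/-- the first sum -/
def s1 (j : ℕ) (B A U : Mt N) : ℂ := ∑ i ∈ Finset.range j, (B * (U ^ i * A * U ^ (j - i))).trace

/-- the last sum -/
def s3 (k m : ℕ) (A U : Mt N) : ℂ :=
  ∑ i ∈ Finset.range m, (A * Uᴴ ^ (i + 1)).trace * conj (cf k U (m - 1 - i))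

/-- the integrand of the Ward identity -/
def FF (k m j : ℕ) (l : List ℕ) (B A U : Mt N) : ℂ :=
  s1 j B A U * (pl l U * conj (cf k U m)) +
    (B * U ^ j).trace * (dpl A l U * conj (cf k U m)) +
    (B * U ^ j).trace * (pl l U * (k * s3 k m A U))

lemma s1_add (j : ℕ) (B A A' U : Mt N) : s1 j B (A + A') U = s1 j B A U + s1 j B A' U := by
  unfold s1
  rw [← Finset.sum_add_distrib]
  refine Finset.sum_congr rfl fun i _ => ?_
  rw [mul_add, add_mul, mul_add, Matrix.trace_add]

lemma s1_smul (j : ℕ) (z : ℂ) (B A U : Mt N) : s1 j B (z • A) U = z * s1 j B A U := by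
  unfold s1
  rw [Finset.mul_sum]
  refine Finset.sum_congr rfl fun i _ => ?_
  rw [Matrix.mul_smul, Matrix.smul_mul, Matrix.mul_smul, Matrix.trace_smul, smul_eq_mul]

lemma s3_add (k m : ℕ) (A A' U : Mt N) : s3 k m (A + A') U = s3 k m A U + s3 k m A' U := by
  unfold s3
  rw [← Finset.sum_add_distrib]
  refine Finset.sum_congr rfl fun i _ => ?_
  rw [add_mul, Matrix.trace_add, add_mul]

lemma s3_smul (k m : ℕ) (z : ℂ) (A U : Mt N) : s3 k m (z • A) U = z * s3 k m A U := by
  unfold s3
  rw [Finset.mul_sum]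
  refine Finset.sum_congr rfl fun i _ => ?_
  rw [Matrix.smul_mul, Matrix.trace_smul, smul_eq_mul]
  ring

lemma dpl_add (A A' : Mt N) (l : List ℕ) (M : Mt N) : dpl (A + A') l M = dpl A l M + dpl A' l M := by
  unfold dpl
  rw [← List.sum_map_add]
  congr 1
  refine List.map_congr_left fun a _ => ?_
  rw [add_mul, Matrix.trace_add]
  ring

lemma dpl_smul (z : ℂ) (A : Mt N) (l : List ℕ) (M : Mt N) : dpl (z • A) l M = z * dpl A l M := by
  unfold dpl
  rw [← List.sum_map_mul_left]
  congr 1
  refine List.map_congr_left fun a _ => ?_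
  rw [Matrix.smul_mul, Matrix.trace_smul, smul_eq_mul]
  ring

lemma FF_add (k m j : ℕ) (l : List ℕ) (B A A' U : Mt N) :
    FF k m j l B (A + A') U = FF k m j l B A U + FF k m j l B A' U := by
  unfold FF
  rw [s1_add, s3_add, dpl_add]
  ring

lemma FF_smul (k m j : ℕ) (l : List ℕ) (z : ℂ) (B A U : Mt N) :
    FF k m j l B (z • A) U = z * FF k m j l B A U := by
  unfold FF
  rw [s1_smul, s3_smul, dpl_smul]
  ring

lemma dpl_cont (A : Mt N) (l : List ℕ) : Continuous (dpl A l) := by
  unfold dpl
  refine continuous_list_sum _ fun a _ => ?_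
  exact (continuous_const.mul ((continuous_const.mul (continuous_pow a)).matrix_trace)).mul (pl_cont _)

lemma FF_cont (k m j : ℕ) (l : List ℕ) (B A : Mt N) : Continuous (FF k m j l B A) := by
  unfold FF s1 s3
  have hc : ∀ m, Continuous fun M : Mt N => conj (cf k M m) := fun m => continuous_star.comp (cf_cont k m)
  have hp : ∀ n : ℕ, Continuous fun M : Mt N => M ^ n := fun n => continuous_pow n
  have hh : ∀ n : ℕ, Continuous fun M : Mt N => Mᴴ ^ n := fun n => (hp n).comp (by fun_prop)
  refine ((Continuous.mul (continuous_finsetSum _ fun i _ => ?_) ((pl_cont l).mul (hc m))).add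
    (((continuous_const.mul (hp j)).matrix_trace).mul ((dpl_cont A l).mul (hc m)))).add
    (((continuous_const.mul (hp j)).matrix_trace).mul ((pl_cont l).mul (continuous_const.mul
      (continuous_finsetSum _ fun i _ => ?_))))
  · exact (continuous_const.mul (((hp i).mul continuous_const).mul (hp _))).matrix_trace
  · exact (continuous_const.mul (hh _)).matrix_trace.mul (hc _)

lemma int_of_cont {f : Mt N → ℂ} (hf : Continuous f) : Integrable (fun U : Gp N => f (U : Mt N)) (haarU N) :=
  (hf.comp continuous_subtype_val).integrable_of_hasCompactSupport (HasCompactSupport.of_compactSpace _)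

/-- the Ward identity for skew matrices -/
lemma ward_FF_skew (k m j : ℕ) (l : List ℕ) (B : Mt N) (hA : Aᴴ = -A) :
    ∫ U : Gp N, FF k m j l B A (U : Mt N) ∂(haarU N) = 0 := by
  have hL := (La.trB (A := A) B j).mul ((La.pl (A := A) l).mul (La.cf (A := A) k m).conj)
  have hcc : ∀ m, Continuous fun M : Mt N => conj (cf k M m) := fun m => continuous_star.comp (cf_cont k m)
  have hp : ∀ n : ℕ, Continuous fun M : Mt N => M ^ n := fun n => continuous_pow n
  have hf : Continuous fun M : Mt N => (B * M ^ j).trace * (pl l M * conj (cf k M m)) :=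
    ((continuous_const.mul (hp j)).matrix_trace).mul ((pl_cont l).mul (hcc m))
  have h := ward_skew hA hL hf (by
    refine Continuous.add (Continuous.mul (continuous_finsetSum _ fun i _ => ?_) ((pl_cont l).mul (hcc m)))
      (((continuous_const.mul (hp j)).matrix_trace).mul (((dpl_cont A l).mul (hcc m)).add ((pl_cont l).mul
        (continuous_star.comp (continuous_const.mul (continuous_finsetSum _ fun i _ => ?_))))))
    · exact (continuous_const.mul (((hp i).mul continuous_const).mul (hp _))).matrix_trace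
    · exact (continuous_const.mul (hp _)).matrix_trace.mul (cf_cont k _))
  rw [← h]
  refine integral_congr_ae (Eventually.of_forall fun U => ?_)
  simp only
  unfold FF s1 s3
  have e : ∀ n : ℕ, conj ((A * (U : Mt N) ^ n).trace) = -(A * (U : Mt N)ᴴ ^ n).trace := by
    intro n
    rw [← Matrix.conjTranspose_pow, starRingEnd_apply, ← Matrix.trace_conjTranspose, Matrix.conjTranspose_mul, hA,
      mul_neg, Matrix.trace_neg, Matrix.trace_mul_comm]
  have e2 : conj (-(k : ℂ) * ∑ i ∈ Finset.range m, (A * (U : Mt N) ^ (i + 1)).trace * cf k (U : Mt N) (m - 1 - i)) =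
      k * ∑ i ∈ Finset.range m, (A * (U : Mt N)ᴴ ^ (i + 1)).trace * conj (cf k (U : Mt N) (m - 1 - i)) := by
    rw [map_mul, map_neg, map_natCast, map_sum, neg_mul, ← mul_neg, ← Finset.sum_neg_distrib]
    congr 1
    refine Finset.sum_congr rfl fun i _ => ?_
    rw [map_mul, e]
    ring
  rw [e2]
  ring

/-- **the Ward identity** -/
theorem ward_FF (k m j : ℕ) (l : List ℕ) (B A : Mt N) :
    ∫ U : Gp N, FF k m j l B A (U : Mt N) ∂(haarU N) = 0 := by
  have h1 : ((1 / 2 : ℂ) • (A - Aᴴ))ᴴ = -((1 / 2 : ℂ) • (A - Aᴴ)) := by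
    rw [Matrix.conjTranspose_smul, Matrix.conjTranspose_sub, Matrix.conjTranspose_conjTranspose]
    have : star (1 / 2 : ℂ) = 1 / 2 := by simp
    rw [this, ← smul_neg, neg_sub]
  have h2 : ((-I / 2 : ℂ) • (A + Aᴴ))ᴴ = -((-I / 2 : ℂ) • (A + Aᴴ)) := by
    rw [Matrix.conjTranspose_smul, Matrix.conjTranspose_add, Matrix.conjTranspose_conjTranspose]
    have : star (-I / 2 : ℂ) = -(-I / 2) := by
      simp
      ring
    rw [this, neg_smul, add_comm Aᴴ A]
  have e : A = (1 / 2 : ℂ) • (A - Aᴴ) + I • ((-I / 2 : ℂ) • (A + Aᴴ)) := by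
    rw [smul_smul]
    have : I * (-I / 2) = (1 / 2 : ℂ) := by
      rw [mul_div_assoc', mul_neg, Complex.I_mul_I, neg_neg]
    rw [this, ← smul_add, sub_add_add_cancel, ← two_smul ℂ A, smul_smul]
    norm_num
  have s1 := ward_FF_skew k m j l B h1
  have s2 := ward_FF_skew k m j l B h2
  calc ∫ U : Gp N, FF k m j l B A (U : Mt N) ∂(haarU N) =
      ∫ U : Gp N, (FF k m j l B ((1 / 2 : ℂ) • (A - Aᴴ)) (U : Mt N) +
        I * FF k m j l B ((-I / 2 : ℂ) • (A + Aᴴ)) (U : Mt N)) ∂(haarU N) := by
        refine integral_congr_ae (Eventually.of_forall fun U => ?_)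
        simp only
        nth_rewrite 1 [e]
        rw [FF_add, FF_smul (z := I)]
    _ = 0 := by
        rw [integral_add (int_of_cont (FF_cont k m j l B _)) ((int_of_cont (FF_cont k m j l B _)).const_mul I),
          integral_const_mul, s1, s2]
        simp

end

end Pool.Agent.J4.H44.WI
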