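import Pool.Agent.J4.H44.WI.U2

set_option autoImplicit false

/-! The loop equations. -/

namespace Pool.Agent.J4.H44.WI

open Complex MeasureTheory Filter Topology Set Pool.Agent.R446.KR
open scoped ComplexConjugate Matrix

noncomputable section

variable {N : ℕ} {A : Mt N}

lemma tr_single (i j : Fin N) (c : ℂ) (M : Mt N) : (Matrix.single i j c * M).trace = c * M j i := by
  unfold Matrix.trace
  simp only [Matrix.diag_apply]
  rw [Finset.sum_eq_single i]
  · exact Matrix.single_mul_apply_same c i j i M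
  · intro b _ hb
    exact Matrix.single_mul_apply_of_ne c i j b b hb M
  · simp

/-- elementary matrices -/
def E (a b : Fin N) : Mt N := Matrix.single a b 1

lemma S1 (X Y : Mt N) : ∑ a, ∑ b, (E b a * (X * E a b * Y)).trace = X.trace * Y.trace := by
  have h : ∀ a b : Fin N, (E b a * (X * E a b * Y)).trace = X a a * Y b b := by
    intro a b
    have : E b a * (X * E a b * Y) = Matrix.single b b (X a a) * Y := by
      unfold E
      rw [← mul_assoc, ← mul_assoc, Matrix.single_mul_mul_single]
      simp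
    rw [this, tr_single]
  simp only [h]
  unfold Matrix.trace
  simp only [Matrix.diag_apply]
  rw [Finset.sum_mul_sum]

lemma S2 (X Y : Mt N) : ∑ a, ∑ b, (E b a * X).trace * (E a b * Y).trace = (X * Y).trace := by
  unfold E
  simp only [tr_single, one_mul]
  unfold Matrix.trace
  simp only [Matrix.diag_apply, Matrix.mul_apply]

/-- the integrand of the loop equation -/
def WW (k m j : ℕ) (l : List ℕ) (U : Mt N) : ℂ :=
  (∑ i ∈ Finset.range j, p i U * p (j - i) U) * (pl l U * conj (cf k U m)) +
    (l.map fun c : ℕ => (c : ℂ) * p (j + c) U * pl (l.erase c) U).sum * conj (cf k U m) +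
    pl l U * (k * ∑ i ∈ Finset.range m, (U ^ j * Uᴴ ^ (i + 1)).trace * conj (cf k U (m - 1 - i)))

lemma dpl_sum (j : ℕ) (l l' : List ℕ) (M : Mt N) : ∑ a, ∑ b, (E b a * M ^ j).trace *
    (l'.map fun c : ℕ => (c : ℂ) * (E a b * M ^ c).trace * pl (l.erase c) M).sum =
    (l'.map fun c : ℕ => (c : ℂ) * p (j + c) M * pl (l.erase c) M).sum := by
  induction l' with
  | nil => simp
  | cons c l' ih =>
    simp only [List.map_cons, List.sum_cons, mul_add, Finset.sum_add_distrib]
    rw [ih]
    congr 1
    have : ∀ a b : Fin N, (E b a * M ^ j).trace * ((c : ℂ) * (E a b * M ^ c).trace * pl (l.erase c) M) =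
        (c : ℂ) * ((E b a * M ^ j).trace * (E a b * M ^ c).trace) * pl (l.erase c) M := fun a b => by ring
    simp only [this]
    simp only [← Finset.sum_mul, ← Finset.mul_sum]
    rw [S2, ← pow_add]
    rfl

lemma FF_sum (k m j : ℕ) (l : List ℕ) (U : Mt N) : ∑ a, ∑ b, FF k m j l (E b a) (E a b) U = WW k m j l U := by
  unfold FF WW
  simp only [Finset.sum_add_distrib]
  have h1 : ∑ a : Fin N, ∑ b, s1 j (E b a) (E a b) U * (pl l U * conj (cf k U m)) =
      (∑ i ∈ Finset.range j, p i U * p (j - i) U) * (pl l U * conj (cf k U m)) := by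
    simp only [← Finset.sum_mul]
    congr 1
    unfold s1
    rw [Finset.sum_congr rfl fun a _ => Finset.sum_comm, Finset.sum_comm]
    refine Finset.sum_congr rfl fun i _ => ?_
    rw [S1]
    rfl
  have h2 : ∑ a : Fin N, ∑ b, (E b a * U ^ j).trace * (dpl (E a b) l U * conj (cf k U m)) =
      (l.map fun c : ℕ => (c : ℂ) * p (j + c) U * pl (l.erase c) U).sum * conj (cf k U m) := by
    rw [← dpl_sum j l l U]
    simp only [← mul_assoc, ← Finset.sum_mul]
    rfl
  have h3 : ∑ a : Fin N, ∑ b, (E b a * U ^ j).trace * (pl l U * (k * s3 k m (E a b) U)) =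
      pl l U * (k * ∑ i ∈ Finset.range m, (U ^ j * Uᴴ ^ (i + 1)).trace * conj (cf k U (m - 1 - i))) := by
    have e : ∀ a b : Fin N, (E b a * U ^ j).trace * (pl l U * (k * s3 k m (E a b) U)) =
        pl l U * (k * ((E b a * U ^ j).trace * s3 k m (E a b) U)) := fun a b => by ring
    simp only [e]
    simp only [← Finset.mul_sum]
    congr 2
    unfold s3
    simp only [Finset.mul_sum]
    rw [Finset.sum_congr rfl fun a _ => Finset.sum_comm, Finset.sum_comm]
    refine Finset.sum_congr rfl fun i _ => ?_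
    simp only [← mul_assoc, ← Finset.sum_mul]
    rw [S2]
  rw [h1, h2, h3]

/-- **loop equation** -/
theorem ward_WW (k m j : ℕ) (l : List ℕ) : ∫ U : Gp N, WW k m j l (U : Mt N) ∂(haarU N) = 0 := by
  simp only [← FF_sum]
  rw [integral_finsetSum _ fun a _ => integrable_finsetSum _ fun b _ => int_of_cont (FF_cont k m j l _ _)]
  refine Finset.sum_eq_zero fun a _ => ?_
  rw [integral_finsetSum _ fun b _ => int_of_cont (FF_cont k m j l _ _)]
  exact Finset.sum_eq_zero fun b _ => ward_FF k m j l _ _

/-- the pairings -/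
def e (N k : ℕ) (l : List ℕ) (m : ℕ) : ℂ := ∫ U : Gp N, pl l (U : Mt N) * conj (cf k (U : Mt N) m) ∂(haarU N)

lemma plc_cont (k : ℕ) (l : List ℕ) (m : ℕ) : Continuous (fun M : Mt N => pl l M * conj (cf k M m)) :=
  (pl_cont l).mul (continuous_star.comp (cf_cont k m))

/-- traces of `U^j U^{-n}` -/
lemma tr_mix (U : Gp N) (j n : ℕ) : ((U : Mt N) ^ j * (U : Mt N)ᴴ ^ n).trace =
    if n ≤ j then p (j - n) (U : Mt N) else conj (p (n - j) (U : Mt N)) := by
  have hU : (U : Mt N) * (U : Mt N)ᴴ = 1 := by
    have := U.2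
    rw [Matrix.mem_unitaryGroup_iff] at this
    exact this
  have hc : ∀ n : ℕ, (U : Mt N) ^ n * (U : Mt N)ᴴ ^ n = 1 := by
    intro n
    induction n with
    | zero => simp
    | succ n ih =>
      rw [pow_succ, pow_succ' ((U : Mt N)ᴴ), mul_assoc, ← mul_assoc (U : Mt N) ((U : Mt N)ᴴ), hU, one_mul, ih]
  split_ifs with h
  · obtain ⟨d, rfl⟩ := Nat.exists_eq_add_of_le h
    rw [add_comm n d, pow_add, mul_assoc, hc, mul_one, Nat.add_sub_cancel]
    rfl
  · push Not at h
    obtain ⟨d, rfl⟩ := Nat.exists_eq_add_of_le h.le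
    rw [pow_add, ← mul_assoc, hc, one_mul, Nat.add_sub_cancel_left]
    unfold p
    rw [← Matrix.conjTranspose_pow, Matrix.trace_conjTranspose]
    rfl

lemma p_zero (M : Mt N) : p 0 M = N := by
  unfold p
  simp

lemma int6 {X : Type} [MeasurableSpace X] {μ : Measure X} {a b c d e f : X → ℂ} (ha : Integrable a μ)
    (hb : Integrable b μ) (hc : Integrable c μ) (hd : Integrable d μ) (he : Integrable e μ) (hf : Integrable f μ) :
    ∫ x, ((a x + b x) + c x + ((d x + e x) - f x)) ∂μ =
      ((∫ x, a x ∂μ) + ∫ x, b x ∂μ) + (∫ x, c x ∂μ) + (((∫ x, d x ∂μ) + ∫ x, e x ∂μ) - ∫ x, f x ∂μ) := by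
  have h1 : Integrable (fun x => a x + b x) μ := ha.add hb
  have h2 : Integrable (fun x => (a x + b x) + c x) μ := h1.add hc
  have h3 : Integrable (fun x => d x + e x) μ := hd.add he
  have h4 : Integrable (fun x => (d x + e x) - f x) μ := h3.sub hf
  rw [integral_add h2 h4, integral_add h1 hc, integral_add ha hb, integral_sub h3 hf, integral_add hd he]

/-- **the recursion for the pairings** -/
theorem rec_e (k : ℕ) {m j : ℕ} (hj : 1 ≤ j) (hjm : j ≤ m) (l : List ℕ) :
    (N : ℂ) * (e N k (j :: l) m + k * e N k l (m - j)) +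
      ∑ i ∈ Finset.Ico 1 j, (e N k (i :: (j - i) :: l) m + k * e N k ((j - i) :: l) (m - i)) +
      (l.map fun c : ℕ => (c : ℂ) * e N k ((j + c) :: l.erase c) m).sum - ((m - j : ℕ) : ℂ) * e N k l (m - j) = 0 := by
  rw [← ward_WW (N := N) k m j l]
  have hi : ∀ l m, Integrable (fun U : Gp N => pl l (U : Mt N) * conj (cf k (U : Mt N) m)) (haarU N) :=
    fun l m => int_of_cont (f := fun M : Mt N => pl l M * conj (cf k M m)) (plc_cont k l m)
  -- the integral of the three parts
  have hW : ∀ U : Gp N, WW k m j l (U : Mt N) =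
      (N * (pl (j :: l) (U : Mt N) * conj (cf k (U : Mt N) m)) +
        ∑ i ∈ Finset.Ico 1 j, pl (i :: (j - i) :: l) (U : Mt N) * conj (cf k (U : Mt N) m)) +
      (l.map fun c : ℕ => (c : ℂ) * (pl ((j + c) :: l.erase c) (U : Mt N) * conj (cf k (U : Mt N) m))).sum +
      ((∑ i ∈ Finset.Ico 1 j, k * (pl ((j - i) :: l) (U : Mt N) * conj (cf k (U : Mt N) (m - i))) +
        k * (N * (pl l (U : Mt N) * conj (cf k (U : Mt N) (m - j))))) -
        ((m - j : ℕ) : ℂ) * (pl l (U : Mt N) * conj (cf k (U : Mt N) (m - j)))) := by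
    intro U
    unfold WW
    congr 1
    · congr 1
      · obtain ⟨j', rfl⟩ := Nat.exists_eq_add_of_le' hj
        rw [Finset.range_eq_Ico, Finset.sum_eq_sum_Ico_succ_bot (by omega), p_zero, Nat.sub_zero, add_mul,
          Finset.sum_mul]
        congr 1
        · rw [pl_cons]; ring
        · refine Finset.sum_congr rfl fun i _ => ?_
          rw [pl_cons, pl_cons]; ring
      · rw [← List.sum_map_mul_right]
        congr 1
        refine List.map_congr_left fun c _ => ?_
        rw [pl_cons]; ring
    · obtain ⟨j', rfl⟩ := Nat.exists_eq_add_of_le' hj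
      obtain ⟨d, rfl⟩ := Nat.exists_eq_add_of_le hjm
      have e0 : j' + 1 + d - (j' + 1) = d := by omega
      rw [e0]
      have key : ∑ i ∈ Finset.range (j' + 1 + d), ((U : Mt N) ^ (j' + 1) * (U : Mt N)ᴴ ^ (i + 1)).trace *
          conj (cf k (U : Mt N) (j' + 1 + d - 1 - i)) =
          (∑ i ∈ Finset.range j', p (j' - i) (U : Mt N) * conj (cf k (U : Mt N) (j' + d - i)) +
            N * conj (cf k (U : Mt N) d)) +
            ∑ i ∈ Finset.range d, conj (p (i + 1) (U : Mt N) * cf k (U : Mt N) (d - 1 - i)) := by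
        rw [Finset.sum_range_add, Finset.sum_range_succ]
        congr 1
        · congr 1
          · refine Finset.sum_congr rfl fun i hi => ?_
            have hi' := Finset.mem_range.1 hi
            rw [tr_mix, if_pos (by omega), show j' + 1 - (i + 1) = j' - i by omega,
              show j' + 1 + d - 1 - i = j' + d - i by omega]
          · rw [tr_mix, if_pos le_rfl, Nat.sub_self, p_zero, show j' + 1 + d - 1 - j' = d by omega]
        · refine Finset.sum_congr rfl fun i hi => ?_
          rw [tr_mix, if_neg (by omega), show j' + 1 + i + 1 - (j' + 1) = i + 1 by omega,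
            show j' + 1 + d - 1 - (j' + 1 + i) = d - 1 - i by omega, map_mul]
      rw [key]
      have hN := congrArg conj (cf_newton k (U : Mt N) d)
      rw [map_mul, map_mul, map_neg, map_natCast, map_natCast, map_sum] at hN
      have hI : ∑ i ∈ Finset.Ico 1 (j' + 1), (k : ℂ) * (pl ((j' + 1 - i) :: l) (U : Mt N) *
          conj (cf k (U : Mt N) (j' + 1 + d - i))) =
          ∑ i ∈ Finset.range j', k * (p (j' - i) (U : Mt N) * pl l (U : Mt N) *
            conj (cf k (U : Mt N) (j' + d - i))) := by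
        rw [Finset.sum_Ico_eq_sum_range]
        refine Finset.sum_congr (by rw [Nat.add_sub_cancel]) fun i hi => ?_
        have hi' := Finset.mem_range.1 hi
        rw [pl_cons, show j' + 1 - (1 + i) = j' - i by omega, show j' + 1 + d - (1 + i) = j' + d - i by omega]
      rw [hI]
      have e3 : pl l (U : Mt N) * (k * ((∑ i ∈ Finset.range j', p (j' - i) (U : Mt N) *
          conj (cf k (U : Mt N) (j' + d - i)) + N * conj (cf k (U : Mt N) d)) +
            ∑ i ∈ Finset.range d, conj (p (i + 1) (U : Mt N) * cf k (U : Mt N) (d - 1 - i)))) =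
          (∑ i ∈ Finset.range j', k * (p (j' - i) (U : Mt N) * pl l (U : Mt N) *
            conj (cf k (U : Mt N) (j' + d - i))) + k * (N * (pl l (U : Mt N) * conj (cf k (U : Mt N) d)))) -
          (-(k : ℂ) * ∑ i ∈ Finset.range d, conj (p (i + 1) (U : Mt N) * cf k (U : Mt N) (d - 1 - i))) *
            pl l (U : Mt N) := by
        have : ∑ i ∈ Finset.range j', (k : ℂ) * (p (j' - i) (U : Mt N) * pl l (U : Mt N) *
            conj (cf k (U : Mt N) (j' + d - i))) = k * (pl l (U : Mt N) * ∑ i ∈ Finset.range j',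
              p (j' - i) (U : Mt N) * conj (cf k (U : Mt N) (j' + d - i))) := by
          rw [Finset.mul_sum, Finset.mul_sum]
          refine Finset.sum_congr rfl fun i _ => by ring
        rw [this]
        ring
      rw [e3, ← hN]
      ring
  simp only [hW]
  have i1 : Integrable (fun U : Gp N => ∑ i ∈ Finset.Ico 1 j, pl (i :: (j - i) :: l) (U : Mt N) *
      conj (cf k (U : Mt N) m)) (haarU N) := integrable_finsetSum _ fun i _ => hi _ _
  have i2 : ∀ l' : List ℕ, Integrable (fun U : Gp N => (l'.map fun c : ℕ => (c : ℂ) * (pl ((j + c) :: l.erase c) (U : Mt N) *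
      conj (cf k (U : Mt N) m))).sum) (haarU N) := by
    intro l'
    induction l' with
    | nil => simp
    | cons c l' ih =>
      simp only [List.map_cons, List.sum_cons]
      exact ((hi _ _).const_mul _).add ih
  have i3 : Integrable (fun U : Gp N => ∑ i ∈ Finset.Ico 1 j, (k : ℂ) * (pl ((j - i) :: l) (U : Mt N) *
      conj (cf k (U : Mt N) (m - i)))) (haarU N) := integrable_finsetSum _ fun i _ => (hi _ _).const_mul _
  have j2 : ∀ l' : List ℕ, ∫ U : Gp N, (l'.map fun c : ℕ => (c : ℂ) * (pl ((j + c) :: l.erase c) (U : Mt N) *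
      conj (cf k (U : Mt N) m))).sum ∂(haarU N) = (l'.map fun c : ℕ => (c : ℂ) * e N k ((j + c) :: l.erase c) m).sum := by
    intro l'
    induction l' with
    | nil => simp
    | cons c l' ih =>
      simp only [List.map_cons, List.sum_cons]
      rw [integral_add ((hi _ _).const_mul _) (i2 l'), ih, integral_const_mul]
      rfl
  rw [int6 ((hi _ _).const_mul _) i1 (i2 l) i3 (((hi _ _).const_mul _).const_mul _) ((hi _ _).const_mul _), j2 l,
    integral_finsetSum _ fun i _ => hi _ _, integral_finsetSum _ fun i _ => (hi _ _).const_mul _]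
  simp only [integral_const_mul]
  rw [Finset.sum_add_distrib]
  unfold e
  ring

end

end Pool.Agent.J4.H44.WI
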