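import Pool.Agent.J4.H44.WI.U3

set_option autoImplicit false

/-! The mean squares of the coefficients. -/

namespace Pool.Agent.J4.H44.WI

open Complex MeasureTheory Filter Topology Set Pool.Agent.R446.KR
open scoped ComplexConjugate Matrix

noncomputable section

variable {N : ℕ}

lemma pow_mem (U : Gp N) (a : ℕ) : (U : Mt N) ^ a ∈ Matrix.unitaryGroup (Fin N) ℂ := (U ^ a).2

lemma p_le (U : Gp N) (a : ℕ) : ‖p a (U : Mt N)‖ ≤ N := by
  unfold p Matrix.trace
  refine (norm_sum_le _ _).trans ((Finset.sum_le_sum fun i _ =>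
    (entry_norm_bound_of_unitary (pow_mem U a) i i)).trans ?_)
  simp

lemma pl_le (hN : 1 ≤ N) (U : Gp N) (l : List ℕ) (hl : ∀ a ∈ l, 1 ≤ a) :
    ‖pl l (U : Mt N)‖ ≤ (N : ℝ) ^ l.sum := by
  have hN1 : (1:ℝ) ≤ N := by exact_mod_cast hN
  induction l with
  | nil => simp [pl]
  | cons a l ih =>
    rw [pl_cons, norm_mul, List.sum_cons, pow_add]
    have h1 : (N : ℝ) ≤ (N : ℝ) ^ a := by
      calc (N : ℝ) = (N : ℝ) ^ 1 := (pow_one _).symm
        _ ≤ (N : ℝ) ^ a := pow_le_pow_right₀ hN1 (hl a (by simp))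
    exact mul_le_mul ((p_le U a).trans h1) (ih fun b hb => hl b (List.mem_cons_of_mem _ hb)) (norm_nonneg _)
      (by positivity)

lemma cf_bd (k m : ℕ) : ∃ C : ℝ, 0 ≤ C ∧ ∀ U : Gp N, ‖cf k (U : Mt N) m‖ ≤ C := by
  have hc : Continuous (fun U : Gp N => cf k (U : Mt N) m) := (cf_cont k m).comp continuous_subtype_val
  obtain ⟨C, hC⟩ := (isCompact_range hc).isBounded.exists_norm_le
  exact ⟨|C|, abs_nonneg _, fun U => (hC _ ⟨U, rfl⟩).trans (le_abs_self _)⟩

lemma e_le (hN : 1 ≤ N) (k : ℕ) (l : List ℕ) (hl : ∀ a ∈ l, 1 ≤ a) (m : ℕ) {C : ℝ}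
    (hC : ∀ U : Gp N, ‖cf k (U : Mt N) m‖ ≤ C) : ‖e N k l m‖ ≤ (N : ℝ) ^ l.sum * C := by
  unfold e
  have h := norm_integral_le_of_norm_le_const (μ := haarU N) (C := (N : ℝ) ^ l.sum * C)
    (f := fun U : Gp N => pl l (U : Mt N) * conj (cf k (U : Mt N) m)) (Eventually.of_forall fun U => by
      rw [norm_mul, RCLike.norm_conj]
      exact mul_le_mul (pl_le hN U l hl) (hC U) (norm_nonneg _) (by positivity))
  simpa using h

lemma e_erase {k c : ℕ} {l : List ℕ} (h : c ∈ l) (m : ℕ) : e N k (c :: l.erase c) m = e N k l m := by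
  unfold e
  refine integral_congr_ae (Eventually.of_forall fun U => ?_)
  simp only
  rw [pl_cons, pl_erase h]

/-- the defect -/
def De (N k m j : ℕ) (l : List ℕ) : ℂ := e N k (j :: l) m + k * e N k l (m - j)

lemma erase_sum {c : ℕ} {l : List ℕ} (h : c ∈ l) : c + (l.erase c).sum = l.sum := by
  have := List.sum_map_erase (fun a : ℕ => a) h
  simpa using this

lemma sum_map_norm_le {l : List ℕ} {f : ℕ → ℂ} {B : ℝ} (h : ∀ c ∈ l, ‖f c‖ ≤ c * B) :
    ‖(l.map f).sum‖ ≤ l.sum * B := by
  induction l with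
  | nil => simp
  | cons a l ih =>
    rw [List.map_cons, List.sum_cons, List.sum_cons]
    refine (norm_add_le _ _).trans ?_
    rw [Nat.cast_add, add_mul]
    exact add_le_add (h a (by simp)) (ih fun c hc => h c (List.mem_cons_of_mem _ hc))

/-- **the stable range** -/
theorem De_zero (k : ℕ) : ∀ m : ℕ, m ≤ N → ∀ (j : ℕ) (l : List ℕ), 1 ≤ j → (∀ a ∈ l, 1 ≤ a) → j + l.sum = m →
    De N k m j l = 0 := by
  intro m
  induction m using Nat.strong_induction_on with
  | _ m ih =>
    intro hmN
    -- trivial case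
    rcases Nat.eq_zero_or_pos m with hm0 | hm0
    · intro j l hj _ hs
      omega
    have hN : 1 ≤ N := by omega
    have hN0 : (0:ℝ) < N := by exact_mod_cast hN
    -- the reduced equation
    have key : ∀ (j : ℕ) (l : List ℕ), 1 ≤ j → (∀ a ∈ l, 1 ≤ a) → j + l.sum = m →
        (N : ℂ) * De N k m j l = -(∑ i ∈ Finset.Ico 1 j, De N k m i ((j - i) :: l)) -
          (l.map fun c : ℕ => (c : ℂ) * De N k m (j + c) (l.erase c)).sum := by
      intro j l hj hl hs
      have h := rec_e (N := N) k hj (by omega : j ≤ m) l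
      have e1 : (l.map fun c : ℕ => (c : ℂ) * e N k ((j + c) :: l.erase c) m).sum =
          (l.map fun c : ℕ => (c : ℂ) * De N k m (j + c) (l.erase c)).sum + (l.sum : ℂ) * e N k l (m - j) := by
        have e2 : ((l.sum : ℕ) : ℂ) * e N k l (m - j) = (l.map fun c : ℕ => (c : ℂ) * e N k l (m - j)).sum := by
          rw [List.sum_map_mul_right]
          congr 1
          rw [Nat.cast_list_sum]
        rw [e2, ← List.sum_map_add]
        congr 1
        refine List.map_congr_left fun c hc => ?_
        have h1 := ih (m - j) (by omega) (by omega) c (l.erase c) (hl c hc)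
          (fun a ha => hl a (List.mem_of_mem_erase ha)) (by rw [erase_sum hc]; omega)
        unfold De at h1
        rw [e_erase hc, Nat.sub_sub] at h1
        unfold De
        linear_combination (-(c : ℂ)) * h1
      rw [e1] at h
      have e3 : ((m - j : ℕ) : ℂ) = ((l.sum : ℕ) : ℂ) := by
        congr 1; omega
      rw [e3] at h
      unfold De at *
      linear_combination h
    -- a bound
    have hbd : ∃ B0 : ℝ, 0 ≤ B0 ∧ ∀ (j : ℕ) (l : List ℕ), 1 ≤ j → (∀ a ∈ l, 1 ≤ a) → j + l.sum = m →
        ‖De N k m j l‖ ≤ B0 := by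
      have hC : ∀ i : ℕ, ∃ C : ℝ, 0 ≤ C ∧ ∀ U : Gp N, ‖cf k (U : Mt N) i‖ ≤ C := fun i => cf_bd k i
      choose C hC0 hC using hC
      have hN1 : (1:ℝ) ≤ N := by exact_mod_cast hN
      refine ⟨(N : ℝ) ^ m * C m + k * ((N : ℝ) ^ m * ∑ i ∈ Finset.range (m + 1), C i), by
        have : 0 ≤ ∑ i ∈ Finset.range (m + 1), C i := Finset.sum_nonneg fun i _ => hC0 i
        have := hC0 m
        positivity, fun j l hj hl hs => ?_⟩
      unfold De
      refine (norm_add_le _ _).trans (add_le_add ?_ ?_)
      · refine (e_le hN k (j :: l) (fun a ha => ?_) m (hC m)).trans ?_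
        · rcases List.mem_cons.1 ha with h | h
          · rw [h]; exact hj
          · exact hl a h
        · rw [List.sum_cons, hs]
      · rw [norm_mul, Complex.norm_natCast]
        refine mul_le_mul_of_nonneg_left ((e_le hN k l hl (m - j) (hC (m - j))).trans ?_) (by positivity)
        refine mul_le_mul (pow_le_pow_right₀ hN1 (by omega)) ?_ (hC0 _) (by positivity)
        exact Finset.single_le_sum (f := C) (fun i _ => hC0 i) (Finset.mem_range.2 (by omega))
    obtain ⟨B0, hB0, hbd⟩ := hbd
    set r : ℝ := ((m - 1 : ℕ) : ℝ) / N with hr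
    have hr0 : 0 ≤ r := by positivity
    have hr1 : r < 1 := by
      rw [hr, div_lt_one hN0]
      exact_mod_cast (by omega : m - 1 < N)
    have hiter : ∀ n : ℕ, ∀ (j : ℕ) (l : List ℕ), 1 ≤ j → (∀ a ∈ l, 1 ≤ a) → j + l.sum = m →
        ‖De N k m j l‖ ≤ B0 * r ^ n := by
      intro n
      induction n with
      | zero => simpa using hbd
      | succ n ihn =>
        intro j l hj hl hs
        have h := congrArg (fun z : ℂ => ‖z‖) (key j l hj hl hs)
        simp only [norm_mul, Complex.norm_natCast] at h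
        have hBn : 0 ≤ B0 * r ^ n := by positivity
        have b1 : ‖∑ i ∈ Finset.Ico 1 j, De N k m i ((j - i) :: l)‖ ≤ ((j - 1 : ℕ) : ℝ) * (B0 * r ^ n) := by
          refine (norm_sum_le _ _).trans ((Finset.sum_le_sum fun i hi => ihn i ((j - i) :: l) ?_ ?_ ?_).trans ?_)
          · exact (Finset.mem_Ico.1 hi).1
          · intro a ha
            have hi' := Finset.mem_Ico.1 hi
            rcases List.mem_cons.1 ha with h | h
            · rw [h]; omega
            · exact hl a h
          · have hi' := Finset.mem_Ico.1 hi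
            rw [List.sum_cons]
            omega
          · rw [Finset.sum_const, Nat.card_Ico, nsmul_eq_mul]
        have b2 : ‖(l.map fun c : ℕ => (c : ℂ) * De N k m (j + c) (l.erase c)).sum‖ ≤ l.sum * (B0 * r ^ n) := by
          refine sum_map_norm_le fun c hc => ?_
          rw [norm_mul, Complex.norm_natCast]
          refine mul_le_mul_of_nonneg_left (ihn (j + c) (l.erase c) (by omega)
            (fun a ha => hl a (List.mem_of_mem_erase ha)) ?_) (by positivity)
          have := erase_sum hc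
          omega
        have b3 : (N : ℝ) * ‖De N k m j l‖ ≤ ((m - 1 : ℕ) : ℝ) * (B0 * r ^ n) := by
          rw [h]
          refine (norm_sub_le _ _).trans ?_
          rw [norm_neg]
          refine (add_le_add b1 b2).trans ?_
          rw [← add_mul]
          refine mul_le_mul_of_nonneg_right ?_ hBn
          have : ((m - 1 : ℕ) : ℝ) = ((j - 1 : ℕ) : ℝ) + l.sum := by
            rw [← Nat.cast_add]; congr 1; omega
          rw [this]
        have b4 : B0 * r ^ (n + 1) = ((m - 1 : ℕ) : ℝ) * (B0 * r ^ n) / N := by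
          rw [pow_succ, hr]; ring
        rw [b4, le_div_iff₀ hN0, mul_comm]
        exact b3
    intro j l hj hl hs
    have hlim : Tendsto (fun n : ℕ => B0 * r ^ n) atTop (𝓝 0) := by
      have := (tendsto_pow_atTop_nhds_zero_of_lt_one hr0 hr1).const_mul B0
      rwa [mul_zero] at this
    have h0 : ‖De N k m j l‖ ≤ 0 := ge_of_tendsto' hlim fun n => hiter n j l hj hl hs
    exact norm_le_zero_iff.1 h0

/-- class functions of degree `d` -/
def Sd (N d : ℕ) : Submodule ℂ (Mt N → ℂ) :=
  Submodule.span ℂ {f | ∃ l : List ℕ, (∀ a ∈ l, 1 ≤ a) ∧ l.sum = d ∧ f = pl l}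

lemma Sd_mul {d j : ℕ} (hj : 1 ≤ j) {f : Mt N → ℂ} (hf : f ∈ Sd N d) : (fun M => p j M * f M) ∈ Sd N (j + d) := by
  induction hf using Submodule.span_induction with
  | mem f hf =>
    obtain ⟨l, h1, h2, rfl⟩ := hf
    refine Submodule.subset_span ⟨j :: l, fun a ha => ?_, by rw [List.sum_cons, h2], ?_⟩
    · rcases List.mem_cons.1 ha with h | h
      · rw [h]; exact hj
      · exact h1 a h
    · funext M; rw [pl_cons]
  | zero =>
    have : (fun M : Mt N => p j M * (0 : Mt N → ℂ) M) = 0 := by funext M; simp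
    rw [this]; exact Submodule.zero_mem _
  | add f g _ _ h1 h2 =>
    have : (fun M : Mt N => p j M * (f + g) M) = (fun M => p j M * f M) + fun M => p j M * g M := by
      funext M; simp [mul_add]
    rw [this]; exact Submodule.add_mem _ h1 h2
  | smul a f _ h1 =>
    have : (fun M : Mt N => p j M * (a • f) M) = a • fun M => p j M * f M := by
      funext M; simp only [Pi.smul_apply, smul_eq_mul]; ring
    rw [this]; exact Submodule.smul_mem _ _ h1

lemma cf_mem (k d : ℕ) : (fun M : Mt N => cf k M d) ∈ Sd N d := by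
  induction d using Nat.strong_induction_on with
  | _ d ih =>
    rcases d with _ | d
    · refine Submodule.subset_span ⟨[], by simp, by simp, ?_⟩
      funext M; rw [cf_zero]; simp [pl]
    · have e1 : (fun M : Mt N => cf k M (d + 1)) = (-((k : ℂ) / (d + 1))) • ∑ i ∈ Finset.range (d + 1),
          fun M => p (i + 1) M * cf k M (d - i) := by
        funext M
        rw [cf_succ]
        simp [Finset.sum_apply]
      rw [e1]
      refine Submodule.smul_mem _ _ (Submodule.sum_mem _ fun i hi => ?_)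
      have hi' := Finset.mem_range.1 hi
      have := Sd_mul (N := N) (j := i + 1) (by omega) (ih (d - i) (by omega))
      rwa [show i + 1 + (d - i) = d + 1 by omega] at this

/-- the pairing against power sums -/
lemma pair {k d j : ℕ} (hj : 1 ≤ j) (hjd : j + d ≤ N) {f : Mt N → ℂ} (hf : f ∈ Sd N d) : Continuous f ∧
    ∫ U : Gp N, p j (U : Mt N) * f (U : Mt N) * conj (cf k (U : Mt N) (j + d)) ∂(haarU N) =
      -(k : ℂ) * ∫ U : Gp N, f (U : Mt N) * conj (cf k (U : Mt N) d) ∂(haarU N) := by
  have hcc : ∀ m, Continuous fun M : Mt N => conj (cf k M m) := fun m => continuous_star.comp (cf_cont k m)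
  have hi1 : ∀ f : Mt N → ℂ, Continuous f → Integrable (fun U : Gp N => p j (U : Mt N) * f (U : Mt N) *
      conj (cf k (U : Mt N) (j + d))) (haarU N) := fun f hf =>
    int_of_cont (f := fun M : Mt N => p j M * f M * conj (cf k M (j + d))) (((p_cont j).mul hf).mul (hcc _))
  have hi2 : ∀ f : Mt N → ℂ, Continuous f → Integrable (fun U : Gp N => f (U : Mt N) *
      conj (cf k (U : Mt N) d)) (haarU N) := fun f hf =>
    int_of_cont (f := fun M : Mt N => f M * conj (cf k M d)) (hf.mul (hcc _))
  induction hf using Submodule.span_induction with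
  | mem f hf =>
    obtain ⟨l, h1, h2, rfl⟩ := hf
    refine ⟨pl_cont l, ?_⟩
    have h := De_zero (N := N) k (j + d) hjd j l hj h1 (by rw [h2])
    unfold De e at h
    rw [Nat.add_sub_cancel_left] at h
    simp only [pl_cons] at h
    linear_combination h
  | zero => exact ⟨continuous_const, by simp⟩
  | add f g _ _ h1 h2 =>
    refine ⟨h1.1.add h2.1, ?_⟩
    have e1 : ∀ U : Gp N, p j (U : Mt N) * (f + g) (U : Mt N) * conj (cf k (U : Mt N) (j + d)) =
        p j (U : Mt N) * f (U : Mt N) * conj (cf k (U : Mt N) (j + d)) +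
          p j (U : Mt N) * g (U : Mt N) * conj (cf k (U : Mt N) (j + d)) := fun U => by
      rw [Pi.add_apply]; ring
    have e2 : ∀ U : Gp N, (f + g) (U : Mt N) * conj (cf k (U : Mt N) d) =
        f (U : Mt N) * conj (cf k (U : Mt N) d) + g (U : Mt N) * conj (cf k (U : Mt N) d) := fun U => by
      rw [Pi.add_apply]; ring
    simp only [e1, e2]
    rw [integral_add (hi1 f h1.1) (hi1 g h2.1), integral_add (hi2 f h1.1) (hi2 g h2.1), h1.2, h2.2]
    ring
  | smul a f _ h1 =>
    refine ⟨h1.1.const_smul a, ?_⟩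
    have e1 : ∀ U : Gp N, p j (U : Mt N) * (a • f) (U : Mt N) * conj (cf k (U : Mt N) (j + d)) =
        a * (p j (U : Mt N) * f (U : Mt N) * conj (cf k (U : Mt N) (j + d))) := fun U => by
      rw [Pi.smul_apply, smul_eq_mul]; ring
    have e2 : ∀ U : Gp N, (a • f) (U : Mt N) * conj (cf k (U : Mt N) d) =
        a * (f (U : Mt N) * conj (cf k (U : Mt N) d)) := fun U => by
      rw [Pi.smul_apply, smul_eq_mul]; ring
    simp only [e1, e2]
    rw [integral_const_mul, integral_const_mul, h1.2]
    ring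

/-- the mean square of a coefficient -/
def Am (N k d : ℕ) : ℂ := ∫ U : Gp N, cf k (U : Mt N) d * conj (cf k (U : Mt N) d) ∂(haarU N)

lemma Am_rec {k m : ℕ} (hm : m ≤ N) : (m : ℂ) * Am N k m = (k : ℂ) ^ 2 * ∑ i ∈ Finset.range m, Am N k (m - 1 - i) := by
  have hcc : ∀ m, Continuous fun M : Mt N => conj (cf k M m) := fun m => continuous_star.comp (cf_cont k m)
  unfold Am
  rw [← integral_const_mul]
  have e1 : ∀ U : Gp N, (m : ℂ) * (cf k (U : Mt N) m * conj (cf k (U : Mt N) m)) =
      ∑ i ∈ Finset.range m, -(k : ℂ) * (p (i + 1) (U : Mt N) * cf k (U : Mt N) (m - 1 - i) *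
        conj (cf k (U : Mt N) m)) := fun U => by
    rw [← mul_assoc, cf_newton, ← Finset.mul_sum, ← Finset.sum_mul]
    ring
  simp only [e1]
  have hi : ∀ i : ℕ, Integrable (fun U : Gp N => -(k : ℂ) * (p (i + 1) (U : Mt N) * cf k (U : Mt N) (m - 1 - i) *
        conj (cf k (U : Mt N) m))) (haarU N) := fun i => (int_of_cont (f := fun M : Mt N => p (i + 1) M *
        cf k M (m - 1 - i) * conj (cf k M m)) (((p_cont _).mul (cf_cont k _)).mul (hcc m))).const_mul _
  rw [integral_finsetSum _ fun i _ => hi i, Finset.mul_sum]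
  refine Finset.sum_congr rfl fun i hi => ?_
  have hi' := Finset.mem_range.1 hi
  have h := (pair (N := N) (k := k) (d := m - 1 - i) (j := i + 1) (by omega) (by omega)
    (cf_mem k (m - 1 - i))).2
  rw [show i + 1 + (m - 1 - i) = m by omega] at h
  rw [integral_const_mul, h]
  ring

lemma choose_rec (K : ℕ) (hK : 1 ≤ K) (m : ℕ) :
    K * ∑ i ∈ Finset.range m, (i + K - 1).choose i = m * (m + K - 1).choose m := by
  induction m with
  | zero => simp
  | succ m ih =>
    rw [Finset.sum_range_succ, mul_add, ih]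
    obtain ⟨K', rfl⟩ := Nat.exists_eq_add_of_le' hK
    have h1 : m + 1 + (K' + 1) - 1 = (m + K') + 1 := by omega
    have h2 : m + (K' + 1) - 1 = m + K' := by omega
    rw [h1, h2]
    have h3 := Nat.add_one_mul_choose_eq (m + K') m
    rw [← add_mul]
    calc (m + (K' + 1)) * (m + K').choose m = (m + K' + 1) * (m + K').choose m := by ring
      _ = (m + K' + 1).choose (m + 1) * (m + 1) := h3
      _ = _ := mul_comm _ _

/-- **the edge law** -/
theorem Am_eq {k : ℕ} (hk : 1 ≤ k) : ∀ m : ℕ, m ≤ N → Am N k m = ((m + k ^ 2 - 1).choose m : ℂ) := by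
  intro m
  induction m using Nat.strong_induction_on with
  | _ m ih =>
    intro hm
    rcases m with _ | m
    · unfold Am
      simp [cf_zero]
    · have h := Am_rec (N := N) (k := k) hm
      have e1 : ∑ i ∈ Finset.range (m + 1), Am N k (m + 1 - 1 - i) =
          ∑ i ∈ Finset.range (m + 1), ((i + k ^ 2 - 1).choose i : ℂ) := by
        rw [Finset.sum_range_reflect (fun i => Am N k i) (m + 1)]
        refine Finset.sum_congr rfl fun i hi => ?_
        have hi' := Finset.mem_range.1 hi
        exact ih i (by omega) (by omega)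
      rw [e1] at h
      have h2 := choose_rec (k ^ 2) (Nat.one_le_pow _ _ hk) (m + 1)
      have h3 : (k : ℂ) ^ 2 * ∑ i ∈ Finset.range (m + 1), ((i + k ^ 2 - 1).choose i : ℂ) =
          ((m + 1 : ℕ) : ℂ) * ((m + 1 + k ^ 2 - 1).choose (m + 1) : ℂ) := by
        exact_mod_cast h2
      rw [h3] at h
      exact mul_left_cancel₀ (by exact_mod_cast Nat.succ_ne_zero m) h

end

end Pool.Agent.J4.H44.WI
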