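import Pool.Agent.J4.H44.WI.U2

set_option autoImplicit false

/-! Newton's identities for `det(1 - X M)^k`. -/

namespace Pool.Agent.J4.H44.WI

open Polynomial Pool.Agent.R446.KR
open scoped Matrix

noncomputable section

variable {n : Type} [Fintype n] [DecidableEq n] {R : Type} [CommRing R]

/-- Jacobi's formula -/
lemma derivative_det (A : Matrix n n R[X]) :
    derivative A.det = (A.adjugate * A.map derivative).trace := by
  have h1 : derivative A.det = ∑ i, (A.updateCol i fun r => derivative (A r i)).det := by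
    simp only [Matrix.det_apply]
    rw [derivative_sum, Finset.sum_comm]
    refine Finset.sum_congr rfl fun σ _ => ?_
    rw [derivative_smul, derivative_prod_finset, Finset.smul_sum]
    refine Finset.sum_congr rfl fun i _ => ?_
    congr 1
    rw [← Finset.mul_prod_erase Finset.univ _ (Finset.mem_univ i), mul_comm]
    congr 1
    · rw [Matrix.updateCol_self]
    · refine Finset.prod_congr rfl fun j hj => ?_
      rw [Matrix.updateCol_ne (Finset.ne_of_mem_erase hj)]
  rw [h1]
  unfold Matrix.trace
  refine Finset.sum_congr rfl fun i _ => ?_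
  rw [← Matrix.cramer_apply, Matrix.cramer_eq_adjugate_mulVec]
  simp [Matrix.mulVec, dotProduct, Matrix.mul_apply, Matrix.diag_apply]

variable (M : Matrix n n R)

/-- the matrix `1 - X M` -/
def oX : Matrix n n R[X] := 1 - (X : R[X]) • M.map C

lemma oX_der : (oX M).map derivative = -(M.map C) := by
  ext1 i j
  unfold oX
  simp only [Matrix.map_apply, Matrix.sub_apply, Matrix.smul_apply, Matrix.neg_apply, smul_eq_mul, map_sub]
  rw [Matrix.one_apply]
  split_ifs <;> simp

/-- `tr(adj(1 - XM) M^r)` -/
def Tr (r : ℕ) : R[X] := ((oX M).adjugate * (M.map C) ^ r).trace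

lemma map_C_pow (r : ℕ) : (M.map C) ^ r = (M ^ r).map C := by
  have := map_pow (C : R →+* R[X]).mapMatrix M r
  simpa [RingHom.mapMatrix_apply] using this.symm

lemma tr_map_C (M : Matrix n n R) : (M.map C).trace = C M.trace := by
  unfold Matrix.trace
  simp [map_sum]

lemma Tr_rec (r : ℕ) : Tr M r = (oX M).det * C (M ^ r).trace + X * Tr M (r + 1) := by
  have h := Matrix.adjugate_mul (oX M)
  have h2 : (oX M).adjugate = (oX M).det • (1 : Matrix n n R[X]) + (X : R[X]) • ((oX M).adjugate * M.map C) := by
    rw [← h]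
    nth_rewrite 3 [oX]
    rw [mul_sub, mul_one, Matrix.mul_smul]
    simp
  unfold Tr
  nth_rewrite 1 [h2]
  rw [add_mul, Matrix.trace_add, Matrix.smul_mul, Matrix.smul_mul, Matrix.trace_smul, Matrix.trace_smul, one_mul,
    map_C_pow, tr_map_C, smul_eq_mul, smul_eq_mul, mul_assoc, ← map_C_pow, ← pow_succ']

lemma Tr_coeff (s : ℕ) : ∀ r : ℕ, (Tr M r).coeff s =
    ∑ i ∈ Finset.range (s + 1), (M ^ (r + i)).trace * (oX M).det.coeff (s - i) := by
  induction s with
  | zero =>
    intro r
    rw [Tr_rec, coeff_add, coeff_mul_C]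
    simp [mul_comm]
  | succ s ih =>
    intro r
    rw [Tr_rec, coeff_add, coeff_mul_C, coeff_X_mul, ih, Finset.sum_range_succ' _ (s + 1)]
    rw [Nat.sub_zero, add_zero, add_comm, mul_comm]
    congr 1
    refine Finset.sum_congr rfl fun i _ => ?_
    rw [show s + 1 - (i + 1) = s - i by omega, show r + 1 + i = r + (i + 1) by omega]

lemma det_der : derivative (oX M).det = -Tr M 1 := by
  rw [derivative_det, oX_der, mul_neg, Matrix.trace_neg]
  unfold Tr
  rw [pow_one]

/-- the generating series of the power sums -/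
def PS : PowerSeries R := PowerSeries.mk fun i => (M ^ (i + 1)).trace

lemma der_ps : ((derivative (oX M).det : R[X]) : PowerSeries R) = -(PS M * ((oX M).det : PowerSeries R)) := by
  rw [det_der]
  ext s
  rw [Polynomial.coeff_coe, coeff_neg, Tr_coeff, map_neg, PowerSeries.coeff_mul,
    Finset.Nat.sum_antidiagonal_eq_sum_range_succ_mk]
  congr 1
  refine Finset.sum_congr rfl fun i _ => ?_
  simp only [PS, PowerSeries.coeff_mk, Polynomial.coeff_coe]
  rw [add_comm 1 i]

lemma newton_pow (k s : ℕ) : ((s + 1 : ℕ) : R) * ((oX M).det ^ k).coeff (s + 1) =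
    -(k : R) * ∑ i ∈ Finset.range (s + 1), (M ^ (i + 1)).trace * ((oX M).det ^ k).coeff (s - i) := by
  have h1 : ((derivative ((oX M).det ^ k) : R[X]) : PowerSeries R) =
      -((k : PowerSeries R) * (PS M * (((oX M).det ^ k : R[X]) : PowerSeries R))) := by
    rcases k with _ | k
    · simp
    · rw [derivative_pow, Polynomial.coe_mul, Polynomial.coe_mul, der_ps, Nat.add_sub_cancel]
      rw [Polynomial.coe_pow, Polynomial.coe_pow]
      have : ((C ((k + 1 : ℕ) : R) : R[X]) : PowerSeries R) = ((k + 1 : ℕ) : PowerSeries R) := by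
        rw [Polynomial.coe_C]; simp
      rw [this]
      ring
  have h2 := congrArg (PowerSeries.coeff s) h1
  rw [Polynomial.coeff_coe, coeff_derivative, map_neg, ← map_natCast (PowerSeries.C (R := R)), PowerSeries.coeff_C_mul,
    PowerSeries.coeff_mul, Finset.Nat.sum_antidiagonal_eq_sum_range_succ_mk] at h2
  simp only [PS, PowerSeries.coeff_mk, Polynomial.coeff_coe] at h2
  rw [neg_mul, ← h2]
  push_cast
  ring

lemma det_coeff_zero : (oX M).det.coeff 0 = 1 := by
  rw [coeff_zero_eq_eval_zero, ← coe_evalRingHom, RingHom.map_det]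
  have : (evalRingHom 0).mapMatrix (oX M) = 1 := by
    ext1 i j
    unfold oX
    simp [RingHom.mapMatrix_apply, Matrix.map_apply, Matrix.sub_apply, Matrix.one_apply]
    split_ifs <;> simp
  rw [this, Matrix.det_one]

lemma pp_oX (k : ℕ) {N : ℕ} (M : Mt N) : pp k M = (oX M).det ^ k := by
  unfold pp oX
  congr 2
  ext1 i j
  simp only [Matrix.sub_apply, Matrix.add_apply, Matrix.smul_apply, Matrix.map_apply, Matrix.neg_apply,
    map_neg, smul_eq_mul, Matrix.one_apply]
  split_ifs <;> simp <;> ring

/-- **the coefficients of `det(1 - XM)^k`** -/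
theorem pp_coeff (k : ℕ) {N : ℕ} (M : Mt N) (m : ℕ) : (pp k M).coeff m = cf k M m := by
  induction m using Nat.strong_induction_on with
  | _ m ih =>
    rcases m with _ | m
    · rw [cf_zero, pp_oX, coeff_zero_eq_eval_zero, eval_pow, ← coeff_zero_eq_eval_zero, det_coeff_zero, one_pow]
    · have h1 := newton_pow M k m
      have h2 := cf_newton k M (m + 1)
      have h0 : ((m + 1 : ℕ) : ℂ) ≠ 0 := by exact_mod_cast Nat.succ_ne_zero m
      refine mul_left_cancel₀ h0 ?_
      rw [h2, pp_oX, h1]
      congr 1
      refine Finset.sum_congr rfl fun i hi => ?_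
      have h3 := ih (m - i) (by omega)
      rw [pp_oX] at h3
      rw [h3]
      rfl

end

end Pool.Agent.J4.H44.WI
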