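import Pool.Agent.J4.H44.WI.U4
import Pool.Agent.J4.H44.WI.U5
import Pool.Agent.J4.H44.LP.Rm

set_option autoImplicit false

/-! The edges of the unitary coefficient measure. -/

namespace Pool.Agent.J4.H44.WI

open Complex MeasureTheory Filter Topology Set Pool.Agent.R446.KR Pool.Agent.J4.H44.LP
open scoped ComplexConjugate Matrix

noncomputable section

/-- **the edge law** for the coefficient measure -/
theorem mu_eq {k N m : ℕ} (hk : 1 ≤ k) (hm : m ≤ N) :
    LP.mu k N m = ((N : ℝ) ^ (k ^ 2))⁻¹ * ((m + k ^ 2 - 1).choose m : ℝ) := by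
  unfold LP.mu
  congr 1
  have h := Am_eq (N := N) hk m hm
  unfold Am at h
  have e : ∀ U : Gp N, cf k (U : Mt N) m * conj (cf k (U : Mt N) m) =
      ((‖(pp k (U : Mt N)).coeff m‖ ^ 2 : ℝ) : ℂ) := fun U => by
    rw [pp_coeff, Complex.mul_conj, Complex.normSq_eq_norm_sq]
  simp only [e] at h
  rw [integral_complex_ofReal] at h
  exact_mod_cast h

/-- the functional equation of `det(1 - XU)^k` -/
lemma pp_symm (k : ℕ) {N : ℕ} (U : Gp N) {m : ℕ} (hm : m ≤ k * N) :
    ‖(pp k (U : Mt N)).coeff (k * N - m)‖ = ‖(pp k (U : Mt N)).coeff m‖ := by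
  have hU : (U : Mt N) * (U : Mt N)ᴴ = 1 := by
    have := U.2
    rw [Matrix.mem_unitaryGroup_iff] at this
    exact this
  obtain ⟨P, hP⟩ : ∃ P, P = pp k (U : Mt N) := ⟨_, rfl⟩
  obtain ⟨u, hu⟩ : ∃ u : ℂ, u = ((-1) ^ N * (U : Mt N).det) ^ k := ⟨_, rfl⟩
  have hdet : ‖(U : Mt N).det‖ = 1 := by
    have h := congrArg Matrix.det hU
    rw [Matrix.det_mul, Matrix.det_conjTranspose, Matrix.det_one] at h
    have h2 : (((U : Mt N).det) * conj ((U : Mt N).det)) = 1 := h
    rw [Complex.mul_conj, Complex.normSq_eq_norm_sq] at h2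
    have h3 : ‖(U : Mt N).det‖ ^ 2 = 1 := by exact_mod_cast h2
    have h4 := norm_nonneg (U : Mt N).det
    nlinarith
  have hun : ‖u‖ = 1 := by
    rw [hu, norm_pow, norm_mul, norm_pow, norm_neg, norm_one, one_pow, one_mul, hdet, one_pow]
  have hdeg : P.natDegree < k * N + 1 := by rw [hP]; exact pp_deg k _
  -- the polynomial identity
  have hid : P = ∑ i ∈ Finset.range (k * N + 1), Polynomial.C (u * conj (P.coeff i)) * Polynomial.X ^ (k * N - i) := by
    refine Polynomial.eq_of_infinite_eval_eq _ _ ((Set.infinite_univ.sdiff (Set.finite_singleton (0:ℂ))).mono ?_)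
    intro x hx
    have hx0 : x ≠ 0 := fun h => hx.2 h
    show P.eval x = Polynomial.eval x (∑ i ∈ Finset.range (k * N + 1), Polynomial.C (u * conj (P.coeff i)) *
      Polynomial.X ^ (k * N - i))
    have e1 : (1 - x • (U : Mt N)) = (-x) • (U : Mt N) * (1 - x⁻¹ • (U : Mt N)ᴴ) := by
      rw [mul_sub, mul_one, Matrix.smul_mul, Matrix.mul_smul, hU, smul_smul, neg_mul, mul_inv_cancel₀ hx0]
      rw [neg_smul, neg_smul, one_smul]
      abel
    have e2 : P.eval x = u * (x ^ (k * N) * conj (P.eval (conj x⁻¹))) := by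
      rw [hP, pp_eval, e1, Matrix.det_mul, Matrix.det_smul, det_conj, pp_eval, hu, map_pow, Fintype.card_fin]
      rw [neg_pow x N, pow_mul']
      ring
    rw [e2, Polynomial.eval_eq_sum_range' hdeg, map_sum, Polynomial.eval_finsetSum, Finset.mul_sum, Finset.mul_sum]
    refine Finset.sum_congr rfl fun i hi => ?_
    have hi' := Finset.mem_range.1 hi
    rw [map_mul, map_pow, Complex.conj_conj, Polynomial.eval_mul, Polynomial.eval_C, Polynomial.eval_pow,
      Polynomial.eval_X]
    have e3 : x ^ (k * N) = x ^ (k * N - i) * x ^ i := by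
      rw [← pow_add]; congr 1; omega
    rw [e3, inv_pow]
    field_simp
  have hc := congrArg (fun p : Polynomial ℂ => p.coeff (k * N - m)) hid
  simp only [Polynomial.finsetSum_coeff, Polynomial.coeff_C_mul_X_pow] at hc
  rw [Finset.sum_eq_single m] at hc
  · rw [if_pos rfl] at hc
    rw [← hP, hc, norm_mul, hun, one_mul, RCLike.norm_conj]
  · intro b hb hne
    rw [if_neg]
    have := Finset.mem_range.1 hb
    omega
  · intro h
    exact absurd (Finset.mem_range.2 (by omega)) h

lemma mu_symm (k N : ℕ) {m : ℕ} (hm : m ≤ k * N) : LP.mu k N (k * N - m) = LP.mu k N m := by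
  unfold LP.mu
  congr 1
  refine integral_congr_ae (Eventually.of_forall fun U => ?_)
  simp only
  rw [pp_symm k U hm]

/-- step functions -/
lemma step_int (a : ℕ → ℂ) {N : ℕ} (hN : 1 ≤ N) :
    IntervalIntegrable (fun v : ℝ => a ⌊N * v⌋₊) volume 0 1 ∧
      ∫ v in (0:ℝ)..1, a ⌊N * v⌋₊ = (N : ℂ)⁻¹ * ∑ m ∈ Finset.range N, a m := by
  have hN0 : (0:ℝ) < N := by exact_mod_cast hN
  set t : ℕ → ℝ := fun m => m / N with ht
  have hae : ∀ m : ℕ, ∀ v ∈ Set.Ioo (t m) (t (m + 1)), a ⌊N * v⌋₊ = a m := by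
    intro m v hv
    congr 1
    rw [Nat.floor_eq_iff (by
      have h1 : (0:ℝ) ≤ t m := by simp only [ht]; positivity
      have h2 := hv.1
      have : 0 ≤ v := by linarith
      positivity)]
    simp only [ht] at hv
    have h1 := hv.1
    have h2 := hv.2
    rw [div_lt_iff₀ hN0] at h1
    rw [lt_div_iff₀ hN0] at h2
    push_cast at h2
    constructor <;> linarith
  have htm : ∀ m, t m ≤ t (m + 1) := fun m => by
    simp only [ht]
    push_cast
    gcongr
    linarith
  have hii : ∀ m : ℕ, IntervalIntegrable (fun v : ℝ => a ⌊N * v⌋₊) volume (t m) (t (m + 1)) := by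
    intro m
    refine (intervalIntegrable_congr_uIoo (g := fun _ => a m) ?_).2 intervalIntegrable_const
    rw [uIoo_of_le (htm m)]
    exact hae m
  have hval : ∀ m : ℕ, ∫ v in (t m)..(t (m + 1)), a ⌊N * v⌋₊ = (N : ℂ)⁻¹ * a m := by
    intro m
    rw [intervalIntegral.integral_of_le (htm m), integral_Ioc_eq_integral_Ioo,
      setIntegral_congr_fun measurableSet_Ioo (hae m), ← integral_Ioc_eq_integral_Ioo,
      ← intervalIntegral.integral_of_le (htm m), intervalIntegral.integral_const]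
    have : t (m + 1) - t m = (N : ℝ)⁻¹ := by simp only [ht]; push_cast; field_simp; ring
    rw [this, Complex.real_smul]
    push_cast
    rfl
  have h0 : t 0 = 0 := by simp [ht]
  have h1 : t N = 1 := by simp only [ht]; field_simp
  have hs := intervalIntegral.sum_integral_adjacent_intervals (f := fun v : ℝ => a ⌊N * v⌋₊) (μ := volume) (a := t)
    (n := N) (fun m _ => hii m)
  constructor
  · have := IntervalIntegrable.trans_iterate (f := fun v : ℝ => a ⌊N * v⌋₊) (μ := volume) (a := t)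
      (n := N) (fun m _ => hii m)
    rwa [h0, h1] at this
  · rw [h0, h1] at hs
    rw [← hs, Finset.mul_sum]
    exact Finset.sum_congr rfl fun m _ => hval m

/-- binomial coefficients -/
lemma choose_lim (r : ℕ) {v : ℝ} (m : ℕ → ℕ) (h : Tendsto (fun N : ℕ => (m N : ℝ) / N) atTop (𝓝 v)) :
    Tendsto (fun N : ℕ => ((m N + r).choose (m N) : ℝ) / (N : ℝ) ^ r) atTop (𝓝 (v ^ r / r.factorial)) := by
  have h1 : ∀ i : ℕ, Tendsto (fun N : ℕ => ((m N : ℝ) + 1 + i) / N) atTop (𝓝 v) := by
    intro i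
    have h2 : Tendsto (fun N : ℕ => ((1:ℝ) + i) / N) atTop (𝓝 0) :=
      tendsto_const_div_atTop_nhds_zero_nat _
    have := h.add h2
    rw [add_zero] at this
    refine this.congr fun N => ?_
    rw [← add_div]; ring_nf
  have h3 := tendsto_finsetProd (Finset.range r) fun i (_ : i ∈ Finset.range r) => h1 i
  rw [Finset.prod_const, Finset.card_range] at h3
  refine (h3.div_const (r.factorial : ℝ)).congr fun N => ?_
  rw [Finset.prod_div_distrib, Finset.prod_const, Finset.card_range, Nat.choose_symm_add,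
    Nat.choose_eq_asc_factorial_div_factorial, Nat.cast_div (Nat.factorial_dvd_ascFactorial _ _)
      (by exact_mod_cast Nat.factorial_ne_zero r), Nat.ascFactorial_eq_prod_range]
  push_cast
  rw [div_right_comm]

lemma choose_bd (r m N : ℕ) (h : m ≤ N) (hN : 1 ≤ N) :
    ((m + r).choose m : ℝ) / (N : ℝ) ^ r ≤ (1 + r) ^ r := by
  have hN0 : (0:ℝ) < N := by exact_mod_cast hN
  have hN1 : (1:ℝ) ≤ N := by exact_mod_cast hN
  have hm : (m : ℝ) ≤ N := by exact_mod_cast h
  rw [div_le_iff₀ (by positivity), ← mul_pow, Nat.choose_symm_add]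
  have h1 : ((m + r).choose r : ℝ) ≤ ((m + r : ℕ) : ℝ) ^ r := by
    have := Nat.choose_le_pow_div (α := ℝ) r (m + r)
    refine this.trans (div_le_self (by positivity) ?_)
    exact_mod_cast Nat.succ_le_of_lt (Nat.factorial_pos r)
  refine h1.trans (pow_le_pow_left₀ (by positivity) ?_ r)
  push_cast
  have : (0:ℝ) ≤ r := Nat.cast_nonneg r
  nlinarith

/-- **Riemann sums against the edge law** -/
theorem edge_sum {k : ℕ} (hk : 1 ≤ k) {g : ℝ → ℂ} (hg : Continuous g) :
    Tendsto (fun N : ℕ => ∑ m ∈ Finset.range N, (LP.mu k N m : ℂ) * g (m / N)) atTop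
      (𝓝 (∫ x in (0:ℝ)..1, (x : ℂ) ^ (k ^ 2 - 1) / (k ^ 2 - 1).factorial * g x)) := by
  obtain ⟨r, hr⟩ : ∃ r, r = k ^ 2 - 1 := ⟨_, rfl⟩
  have hkr : k ^ 2 = r + 1 := by
    have := Nat.one_le_pow 2 k hk
    omega
  rw [← hr]
  obtain ⟨S, hS⟩ := (isCompact_Icc (a := (0:ℝ)) (b := 1)).exists_bound_of_continuousOn hg.continuousOn
  -- the step functions
  set a : ℕ → ℕ → ℂ := fun N m => ((N : ℂ) * (LP.mu k N m : ℂ)) * g (m / N) with ha
  have hmu : ∀ N m : ℕ, 1 ≤ N → m ≤ N → (N : ℂ) * (LP.mu k N m : ℂ) =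
      ((((m + r).choose m : ℝ) / (N : ℝ) ^ r : ℝ) : ℂ) := by
    intro N m hN hm
    have hN0 : (N : ℂ) ≠ 0 := by exact_mod_cast (by omega : N ≠ 0)
    rw [mu_eq hk hm, hkr]
    push_cast
    rw [show m + (r + 1) - 1 = m + r by omega, pow_succ]
    field_simp
  have hlim : Tendsto (fun N : ℕ => ∫ v in (0:ℝ)..1, a N ⌊N * v⌋₊) atTop
      (𝓝 (∫ x in (0:ℝ)..1, (x : ℂ) ^ r / r.factorial * g x)) := by
    refine intervalIntegral.tendsto_integral_filter_of_dominated_convergence (fun _ => (1 + r : ℝ) ^ r * |S|) ?_ ?_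
      intervalIntegrable_const ?_
    · filter_upwards [eventually_ge_atTop 1] with N hN
      exact (step_int (a N) hN).1.aestronglyMeasurable_restrict_uIoc
    · filter_upwards [eventually_ge_atTop 1] with N hN
      have hN0 : (0:ℝ) < N := by exact_mod_cast hN
      refine Eventually.of_forall fun v hv => ?_
      rw [uIoc_of_le zero_le_one] at hv
      have hfl : ⌊N * v⌋₊ ≤ N := by
        refine (Nat.floor_le_floor (show (N:ℝ) * v ≤ N by nlinarith [hv.2])).trans ?_
        rw [Nat.floor_natCast]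
      simp only [ha]
      rw [hmu N _ hN hfl, norm_mul, Complex.norm_real, Real.norm_of_nonneg (by positivity)]
      refine mul_le_mul (choose_bd r _ N hfl hN) ((hS _ ⟨by positivity, ?_⟩).trans (le_abs_self S))
        (norm_nonneg _) (by positivity)
      rw [div_le_one hN0]
      exact_mod_cast hfl
    · refine Eventually.of_forall fun v hv => ?_
      rw [uIoc_of_le zero_le_one] at hv
      have hfl : Tendsto (fun N : ℕ => ((⌊N * v⌋₊ : ℕ) : ℝ) / N) atTop (𝓝 v) := by
        have h1 := (tendsto_nat_floor_mul_div_atTop (R := ℝ) hv.1.le).comp tendsto_natCast_atTop_atTop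
        refine h1.congr fun N => ?_
        simp only [Function.comp, mul_comm]
      have h2 := choose_lim r (fun N => ⌊N * v⌋₊) hfl
      have h3 := ((Complex.continuous_ofReal.tendsto _).comp h2).mul ((hg.tendsto v).comp hfl)
      have e4 : ((v ^ r / r.factorial : ℝ) : ℂ) * g v = (v : ℂ) ^ r / r.factorial * g v := by push_cast; rfl
      rw [e4] at h3
      refine h3.congr' ?_
      filter_upwards [eventually_ge_atTop 1] with N hN
      have hfl' : ⌊N * v⌋₊ ≤ N := by
        have hN0 : (0:ℝ) < N := by exact_mod_cast hN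
        refine (Nat.floor_le_floor (show (N:ℝ) * v ≤ N by nlinarith [hv.2])).trans ?_
        rw [Nat.floor_natCast]
      simp only [Function.comp, ha]
      rw [hmu N _ hN hfl']
  refine hlim.congr' ?_
  filter_upwards [eventually_ge_atTop 1] with N hN
  rw [(step_int (a N) hN).2, Finset.mul_sum]
  refine Finset.sum_congr rfl fun m _ => ?_
  have hN0 : (N : ℂ) ≠ 0 := by exact_mod_cast (by omega : N ≠ 0)
  simp only [ha]
  field_simp

end

end Pool.Agent.J4.H44.WI
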