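import Pool.Agent.J4.H44.WI.U6
import Pool.Agent.J4.H44.LP.Sh3

set_option autoImplicit false

/-! Rigidity of the shifted moments from the middle of the spectrum, against the unitary model. -/

namespace Pool.Agent.J4.H44.WI

open Complex MeasureTheory Filter Topology Set Pool.Agent.R446.KR Pool.Agent.J4.H44.LP
open scoped ComplexConjugate Matrix

noncomputable section

/-- the edge part of the coefficient measure -/
lemma gsum {k : ℕ} (hk : 2 ≤ k) {g : ℝ → ℂ} (hg : Continuous g) (h0 : ∀ v : ℝ, 1 ≤ v → v ≤ k - 1 → g v = 0) :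
    Tendsto (fun N : ℕ => ∑ m ∈ Finset.range (k * N + 1), (LP.mu k N m : ℂ) * g (m / N)) atTop
      (𝓝 (edg k g)) := by
  have hk1 : 1 ≤ k := by omega
  have l1 := edge_sum hk1 hg
  have hg2 : Continuous (fun x : ℝ => g (k - x)) := hg.comp (by fun_prop)
  have l2 := edge_sum hk1 hg2
  have e1 : edg k g = (∫ x in (0:ℝ)..1, (x : ℂ) ^ (k ^ 2 - 1) / (k ^ 2 - 1).factorial * g x) +
      ∫ x in (0:ℝ)..1, (x : ℂ) ^ (k ^ 2 - 1) / (k ^ 2 - 1).factorial * g (k - x) := by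
    unfold edg
    congr 1
    have h := intervalIntegral.integral_comp_sub_left (a := 0) (b := 1)
      (fun x : ℝ => ((k : ℂ) - x) ^ (k ^ 2 - 1) / (k ^ 2 - 1).factorial * g x) (k : ℝ)
    rw [sub_zero] at h
    rw [← h]
    refine intervalIntegral.integral_congr fun x _ => ?_
    push_cast
    ring
  rw [e1]
  refine (l1.add l2).congr' ?_
  filter_upwards [eventually_ge_atTop 1] with N hN
  have hN0 : (0:ℝ) < N := by exact_mod_cast hN
  obtain ⟨k', rfl⟩ := Nat.exists_eq_add_of_le' hk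
  have e2 : (k' + 2) * N + 1 = (N + (k' * N + 1)) + N := by ring
  rw [e2, Finset.sum_range_add _ (N + (k' * N + 1)), Finset.sum_range_add _ N]
  have e3 : ∑ i ∈ Finset.range (k' * N + 1), (LP.mu (k' + 2) N (N + i) : ℂ) * g ((N + i : ℕ) / N) = 0 := by
    refine Finset.sum_eq_zero fun i hi => ?_
    have hi' := Finset.mem_range.1 hi
    rw [h0, mul_zero]
    · rw [le_div_iff₀ hN0]; push_cast; linarith [(Nat.cast_nonneg i : (0:ℝ) ≤ i)]
    · rw [div_le_iff₀ hN0]
      have : (i : ℝ) ≤ k' * N := by exact_mod_cast (by omega : i ≤ k' * N)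
      push_cast
      linarith
  rw [e3, add_zero]
  congr 1
  rw [← Finset.sum_range_reflect (fun i => (LP.mu (k' + 2) N (N + (k' * N + 1) + i) : ℂ) *
    g ((N + (k' * N + 1) + i : ℕ) / N)) N]
  refine Finset.sum_congr rfl fun i hi => ?_
  have hi' := Finset.mem_range.1 hi
  have e4 : N + (k' * N + 1) + (N - 1 - i) = (k' + 2) * N - i := by
    have : (k' + 2) * N = k' * N + 2 * N := by ring
    omega
  have hle : i ≤ (k' + 2) * N := by
    have : (k' + 2) * N = k' * N + 2 * N := by ring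
    omega
  rw [e4, mu_symm (k' + 2) N hle, Nat.cast_sub hle]
  congr 2
  push_cast
  field_simp

lemma fg_le {k : ℕ} (α : ℝ) (s : Finset ℝ) (c : ℝ → ℂ) {ε δ : ℝ} (hδ : 0 < δ) (hε : 0 ≤ ε)
    (hf : ∀ v : ℝ, 1 - δ ≤ v → v ≤ k - 1 + δ → ‖fc α s c v‖ ≤ ε) {v : ℝ} (x : -1 ≤ v) (y : v ≤ k + 1) :
    ‖fc α s c v - gc k δ α s c v‖ ≤ ε := by
  have e1 : fc α s c v - gc k δ α s c v = ((mct k δ v : ℝ) : ℂ) * fc α s c v := by
    unfold gc
    rw [cut_one x y]
    push_cast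
    ring
  rw [e1, norm_mul, Complex.norm_real, Real.norm_of_nonneg (mct_nonneg k δ v)]
  rcases le_total v (1 - δ) with h | h
  · rw [mct_left hδ h, zero_mul]; exact hε
  rcases le_total v (k - 1 + δ) with h' | h'
  · exact (mul_le_of_le_one_left (norm_nonneg _) (mct_le k δ v)).trans (hf v h h')
  · rw [mct_right hδ h', zero_mul]; exact hε

lemma Wk_ev (k : ℕ) (α : ℝ) {N : ℕ} (hN : 1 ≤ N) :
    Wk k α N = ∑ m ∈ Finset.range (k * N + 1), (LP.mu k N m : ℂ) * ev α (m / N) := by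
  rw [Wk_eq k α hN]
  refine Finset.sum_congr rfl fun m _ => ?_
  unfold ev
  push_cast
  rfl

/-- **the unitary side of the linear relation** -/
lemma W_rel {k : ℕ} (hk : 2 ≤ k) {W : ℝ → ℂ} (hW : ∀ α : ℝ, Tendsto (fun N => Wk k α N) atTop (𝓝 (W α)))
    (α : ℝ) (s : Finset ℝ) (c : ℝ → ℂ) {ε δ : ℝ} (hδ : 0 < δ) (hε : 0 ≤ ε)
    (hf : ∀ v : ℝ, 1 - δ ≤ v → v ≤ k - 1 + δ → ‖fc α s c v‖ ≤ ε) :
    ‖W α - (∑ a ∈ s, c a * W a + edg k (gc k δ α s c))‖ ≤ ε * ‖W 0‖ := by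
  have l1 := gsum hk (gc_smooth k δ α s c).continuous (fun v h1 h2 => by
    unfold gc
    rw [mct_one hδ (by linarith) (by linarith)]
    simp)
  have l2 : Tendsto (fun N : ℕ => Wk k α N - (∑ a ∈ s, c a * Wk k a N +
      ∑ m ∈ Finset.range (k * N + 1), (LP.mu k N m : ℂ) * gc k δ α s c (m / N))) atTop
      (𝓝 (W α - (∑ a ∈ s, c a * W a + edg k (gc k δ α s c)))) :=
    (hW α).sub ((tendsto_finsetSum _ fun a _ => (hW a).const_mul (c a)).add l1)
  refine le_of_tendsto_of_tendsto l2.norm ((hW 0).norm.const_mul ε) ?_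
  filter_upwards [eventually_ge_atTop 1] with N hN
  have hN0 : (0:ℝ) < N := by exact_mod_cast hN
  have e1 : Wk k α N - (∑ a ∈ s, c a * Wk k a N +
      ∑ m ∈ Finset.range (k * N + 1), (LP.mu k N m : ℂ) * gc k δ α s c (m / N)) =
      ∑ m ∈ Finset.range (k * N + 1), (LP.mu k N m : ℂ) * (fc α s c (m / N) - gc k δ α s c (m / N)) := by
    simp only [Wk_ev k _ hN, mul_sub, Finset.sum_sub_distrib]
    rw [← sub_sub]
    congr 1
    unfold fc
    simp only [mul_sub, Finset.sum_sub_distrib]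
    congr 1
    simp only [Finset.mul_sum]
    rw [Finset.sum_comm]
    refine Finset.sum_congr rfl fun m _ => Finset.sum_congr rfl fun a _ => ?_
    ring
  have e2 : ‖Wk k 0 N‖ = ∑ m ∈ Finset.range (k * N + 1), LP.mu k N m := by
    have : Wk k 0 N = ((∑ m ∈ Finset.range (k * N + 1), LP.mu k N m : ℝ) : ℂ) := by
      rw [Wk_ev k 0 hN]
      push_cast
      refine Finset.sum_congr rfl fun m _ => ?_
      unfold ev
      simp
    rw [this, Complex.norm_real, Real.norm_of_nonneg (Finset.sum_nonneg fun m _ => LP.mu_nonneg k N m)]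
  rw [e1, e2, Finset.mul_sum]
  refine (norm_sum_le _ _).trans (Finset.sum_le_sum fun m hm => ?_)
  have hm1 : m ≤ k * N := by have := Finset.mem_range.1 hm; omega
  have hm2 : (m : ℝ) / N ≤ k := by
    rw [div_le_iff₀ hN0]; exact_mod_cast hm1
  have hm3 : (0:ℝ) ≤ (m : ℝ) / N := by positivity
  rw [norm_mul, Complex.norm_real, Real.norm_of_nonneg (LP.mu_nonneg k N m), mul_comm ε]
  exact mul_le_mul_of_nonneg_left (fg_le α s c hδ hε hf (by linarith) (by linarith)) (LP.mu_nonneg k N m)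

/-- **rigidity from the middle of the spectrum** -/
theorem mid_match {k : ℕ} (hk : 2 ≤ k) {A : Set ℝ} {δ : ℝ} (hδ : 0 < δ) (hA : Cmp k A δ) {W : ℝ → ℂ}
    (hW : ∀ α : ℝ, Tendsto (fun N => Wk k α N) atTop (𝓝 (W α)))
    (hG : ∀ a ∈ A, Tendsto (Qn k a) atTop (𝓝 (H306R2.aF k * W a))) (α : ℝ) :
    Tendsto (Qn k α) atTop (𝓝 (H306R2.aF k * W α)) := by
  obtain ⟨l, hl, hap⟩ := sh_all hk hδ hA hG α
  have hval : ∀ (s : Finset ℝ) (c : ℝ → ℂ) (ε : ℝ), 0 ≤ ε →
      (∀ v : ℝ, 1 - δ ≤ v → v ≤ k - 1 + δ → ‖fc α s c v‖ ≤ ε) →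
      ‖H306R2.aF k * W α - lv k δ α s c (fun a => H306R2.aF k * W a)‖ ≤ |H306R2.aF k| * (ε * ‖W 0‖) := by
    intro s c ε hε hf
    have e1 : H306R2.aF k * W α - lv k δ α s c (fun a => H306R2.aF k * W a) =
        H306R2.aF k * (W α - (∑ a ∈ s, c a * W a + edg k (gc k δ α s c))) := by
      unfold lv
      simp only
      have e4 : ∑ a ∈ s, c a * (H306R2.aF k * W a) = (H306R2.aF k : ℂ) * ∑ a ∈ s, c a * W a := by
        rw [Finset.mul_sum]
        exact Finset.sum_congr rfl fun a _ => by ring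
      rw [e4]
      ring
    rw [e1, norm_mul, Complex.norm_real, Real.norm_eq_abs]
    exact mul_le_mul_of_nonneg_left (W_rel hk hW α s c hδ hε hf) (abs_nonneg _)
  have hzero : ‖l - H306R2.aF k * W α‖ ≤ 0 := by
    refine le_of_forall_pos_le_add fun ε hε => ?_
    set ε1 : ℝ := min (ε / 2) (ε / (2 * (|H306R2.aF k| * ‖W 0‖ + 1))) with hε1
    have hpos : 0 ≤ |H306R2.aF k| * ‖W 0‖ := by positivity
    have hε1p : 0 < ε1 := by positivity
    obtain ⟨s, c, h1, h2, h3⟩ := hap ε1 hε1p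
    have h4 := hval s c ε1 hε1p.le h2
    have h5 : |H306R2.aF k| * (ε1 * ‖W 0‖) ≤ ε / 2 := by
      have h6 : ε1 ≤ ε / (2 * (|H306R2.aF k| * ‖W 0‖ + 1)) := min_le_right _ _
      calc |H306R2.aF k| * (ε1 * ‖W 0‖) = ε1 * (|H306R2.aF k| * ‖W 0‖) := by ring
        _ ≤ ε / (2 * (|H306R2.aF k| * ‖W 0‖ + 1)) * (|H306R2.aF k| * ‖W 0‖ + 1) := by gcongr; linarith
        _ = ε / 2 := by field_simp
    have h6 : ε1 ≤ ε / 2 := min_le_left _ _
    have e : l - H306R2.aF k * W α = (l - lv k δ α s c (fun a => H306R2.aF k * W a)) -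
        (H306R2.aF k * W α - lv k δ α s c (fun a => H306R2.aF k * W a)) := by ring
    rw [e]
    refine (norm_sub_le _ _).trans ?_
    linarith
  have h0 : l = H306R2.aF k * W α := by
    have := norm_le_zero_iff.1 hzero
    exact sub_eq_zero.1 this
  rw [← h0]
  exact hl

end

end Pool.Agent.J4.H44.WI
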