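import Pool.Agent.J4.H44.WI.U7

set_option autoImplicit false

/-! The unitary side alone. -/

namespace Pool.Agent.J4.H44.WI

open Complex MeasureTheory Filter Topology Set Pool.Agent.R446.KR Pool.Agent.J4.H44.LP
open scoped ComplexConjugate Matrix

noncomputable section

lemma lim_of_approx' {f : ℕ → ℂ} (h : ∀ ε : ℝ, 0 < ε → ∃ l : ℂ, ∀ᶠ T : ℕ in atTop, ‖f T - l‖ ≤ ε) :
    ∃ l : ℂ, Tendsto f atTop (𝓝 l) := by
  rw [← cauchy_map_iff_exists_tendsto, Metric.cauchy_iff]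
  refine ⟨inferInstance, fun ε hε => ?_⟩
  obtain ⟨l, hl⟩ := h (ε / 3) (by positivity)
  refine ⟨f '' {T | ‖f T - l‖ ≤ ε / 3}, image_mem_map hl, ?_⟩
  rintro _ ⟨x, hx, rfl⟩ _ ⟨y, hy, rfl⟩
  rw [dist_eq_norm]
  have e : f x - f y = (f x - l) - (f y - l) := by ring
  rw [e]
  refine lt_of_le_of_lt (norm_sub_le _ _) ?_
  have h1 : ‖f x - l‖ ≤ ε / 3 := hx
  have h2 : ‖f y - l‖ ≤ ε / 3 := hy
  linarith

/-- the relation for finite `N` -/
lemma W_rel_fin {k : ℕ} (α : ℝ) (s : Finset ℝ) (c : ℝ → ℂ) {ε δ : ℝ} (hδ : 0 < δ) (hε : 0 ≤ ε)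
    (hf : ∀ v : ℝ, 1 - δ ≤ v → v ≤ k - 1 + δ → ‖fc α s c v‖ ≤ ε) {N : ℕ} (hN : 1 ≤ N) :
    ‖Wk k α N - (∑ a ∈ s, c a * Wk k a N +
      ∑ m ∈ Finset.range (k * N + 1), (LP.mu k N m : ℂ) * gc k δ α s c (m / N))‖ ≤ ε * ‖Wk k 0 N‖ := by
  have hN0 : (0:ℝ) < N := by exact_mod_cast hN
  have e1 : Wk k α N - (∑ a ∈ s, c a * Wk k a N +
      ∑ m ∈ Finset.range (k * N + 1), (LP.mu k N m : ℂ) * gc k δ α s c (m / N)) =
      ∑ m ∈ Finset.range (k * N + 1), (LP.mu k N m : ℂ) * (fc α s c (m / N) - gc k δ α s c (m / N)) := by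
    simp only [Wk_ev k _ hN, mul_sub, Finset.sum_sub_distrib]
    rw [← sub_sub]
    congr 1
    unfold fc
    simp only [mul_sub, Finset.sum_sub_distrib]
    congr 1
    simp only [Finset.mul_sum]
    rw [Finset.sum_comm]
    refine Finset.sum_congr rfl fun m _ => Finset.sum_congr rfl fun a _ => ?_
    ring
  have e2 : ‖Wk k 0 N‖ = ∑ m ∈ Finset.range (k * N + 1), LP.mu k N m := by
    have : Wk k 0 N = ((∑ m ∈ Finset.range (k * N + 1), LP.mu k N m : ℝ) : ℂ) := by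
      rw [Wk_ev k 0 hN]
      push_cast
      refine Finset.sum_congr rfl fun m _ => ?_
      unfold ev
      simp
    rw [this, Complex.norm_real, Real.norm_of_nonneg (Finset.sum_nonneg fun m _ => LP.mu_nonneg k N m)]
  rw [e1, e2, Finset.mul_sum]
  refine (norm_sum_le _ _).trans (Finset.sum_le_sum fun m hm => ?_)
  have hm1 : m ≤ k * N := by have := Finset.mem_range.1 hm; omega
  have hm2 : (m : ℝ) / N ≤ k := by
    rw [div_le_iff₀ hN0]; exact_mod_cast hm1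
  have hm3 : (0:ℝ) ≤ (m : ℝ) / N := by positivity
  rw [norm_mul, Complex.norm_real, Real.norm_of_nonneg (LP.mu_nonneg k N m), mul_comm ε]
  exact mul_le_mul_of_nonneg_left (fg_le α s c hδ hε hf (by linarith) (by linarith)) (LP.mu_nonneg k N m)

/-- **the limits on the unitary side** -/
theorem W_lim {k : ℕ} (hk : 2 ≤ k) {A : Set ℝ} {δ : ℝ} (hδ : 0 < δ) (hA : Cmp k A δ)
    (hw : ∀ a ∈ A, ∃ w : ℂ, Tendsto (fun N => Wk k a N) atTop (𝓝 w)) (α : ℝ) :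
    ∃ w : ℂ, Tendsto (fun N => Wk k α N) atTop (𝓝 w) := by
  have h' : ∀ a : ℝ, ∃ w : ℂ, a ∈ A → Tendsto (fun N => Wk k a N) atTop (𝓝 w) := fun a => by
    by_cases ha : a ∈ A
    · obtain ⟨w, hw⟩ := hw a ha
      exact ⟨w, fun _ => hw⟩
    · exact ⟨0, fun h => absurd h ha⟩
  choose W hW using h'
  have hlim : ∀ (α : ℝ) (s : Finset ℝ) (c : ℝ → ℂ), (∀ a ∈ s, a ∈ A) →
      Tendsto (fun N : ℕ => ∑ a ∈ s, c a * Wk k a N +
        ∑ m ∈ Finset.range (k * N + 1), (LP.mu k N m : ℂ) * gc k δ α s c (m / N)) atTop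
        (𝓝 (∑ a ∈ s, c a * W a + edg k (gc k δ α s c))) := by
    intro α s c hs
    refine (tendsto_finsetSum _ fun a ha => (hW a (hs a ha)).const_mul (c a)).add
      (gsum hk (gc_smooth k δ α s c).continuous (fun v h1 h2 => by
        unfold gc
        rw [mct_one hδ (by linarith) (by linarith)]
        simp))
  -- boundedness
  obtain ⟨B, hB0, hB⟩ : ∃ B : ℝ, 0 ≤ B ∧ ∀ᶠ N : ℕ in atTop, ‖Wk k 0 N‖ ≤ B := by
    obtain ⟨s, c, hs, hf⟩ := hA 0 (1 / 2) (by norm_num)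
    have l1 := (hlim 0 s c hs).norm.eventually_le_const (lt_add_one _)
    refine ⟨2 * (‖∑ a ∈ s, c a * W a + edg k (gc k δ 0 s c)‖ + 1), by positivity, ?_⟩
    filter_upwards [l1, eventually_ge_atTop 1] with N h1 hN
    have h2 := W_rel_fin (k := k) 0 s c hδ (by norm_num) hf hN
    have h3 := norm_le_norm_add_norm_sub' (Wk k 0 N) (∑ a ∈ s, c a * Wk k a N +
      ∑ m ∈ Finset.range (k * N + 1), (LP.mu k N m : ℂ) * gc k δ 0 s c (m / N))
    linarith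
  refine lim_of_approx' fun ε hε => ?_
  obtain ⟨s, c, hs, hf⟩ := hA α (ε / (2 * (B + 1))) (by positivity)
  refine ⟨∑ a ∈ s, c a * W a + edg k (gc k δ α s c), ?_⟩
  have e1 := Metric.tendsto_nhds.1 (hlim α s c hs) (ε / 2) (by positivity)
  filter_upwards [e1, hB, eventually_ge_atTop 1] with N h1 h2 hN
  have h3 := W_rel_fin (k := k) α s c hδ (by positivity) hf hN
  rw [dist_eq_norm] at h1
  have h4 : ε / (2 * (B + 1)) * ‖Wk k 0 N‖ ≤ ε / 2 := by
    calc ε / (2 * (B + 1)) * ‖Wk k 0 N‖ ≤ ε / (2 * (B + 1)) * (B + 1) := by gcongr; linarith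
      _ = ε / 2 := by field_simp
  refine (norm_sub_le_norm_sub_add_norm_sub _ (∑ a ∈ s, c a * Wk k a N +
      ∑ m ∈ Finset.range (k * N + 1), (LP.mu k N m : ℂ) * gc k δ α s c (m / N)) _).trans ?_
  linarith

end

end Pool.Agent.J4.H44.WI
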